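import Pool.Agent.Helper95.CFSheetDefs
import Pool.Agent.Helper95.CFVal

/-! MP_717b2e_co, module GL: gluing sheets. -/

namespace Pool.Agent.Helper95.CF

open Finset

variable {n : ℕ}

theorem gl_nc {f g : ℕ → ℕ} (hn : 1 < n) (hf : NCI 1 n f) (hg : NCI 1 n g) :
    NC (2 * n) (gl n f g) where
  lt x hx := by
    unfold gl
    split_ifs with h1 h2 h3
    · omega
    · omega
    · have := hf.mem x (by omega) h3; omega
    · have := hg.mem (x - n) (by omega) (by omega); omega
  inv x hx := by
    by_cases h1 : x = 0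
    · subst h1
      simp only [gl, if_true]
      split_ifs <;> omega
    by_cases h2 : x = n
    · subst h2
      simp only [gl, if_true]
      split_ifs <;> omega
    by_cases h3 : x < n
    · have hm := hf.mem x (by omega) h3
      have hi := hf.inv x (by omega) h3
      have e1 : gl n f g x = f x := by
        unfold gl; rw [if_neg h1, if_neg h2, if_pos h3]
      rw [e1]
      unfold gl
      rw [if_neg (by omega), if_neg (by omega), if_pos (by omega), hi]
    · have hm := hg.mem (x - n) (by omega) (by omega)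
      have hi := hg.inv (x - n) (by omega) (by omega)
      have e1 : gl n f g x = g (x - n) + n := by
        unfold gl; rw [if_neg h1, if_neg h2, if_neg h3]
      rw [e1]
      unfold gl
      rw [if_neg (by omega), if_neg (by omega), if_neg (by omega), Nat.add_sub_cancel, hi]
      omega
  ne x hx := by
    unfold gl
    split_ifs with h1 h2 h3
    · omega
    · omega
    · exact hf.ne x (by omega) h3
    · have := hg.ne (x - n) (by omega) (by omega); omega
  nc x y hxy hy hx := by
    by_cases h1 : x = 0
    · subst h1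
      simp only [gl, if_true] at hy ⊢
      rw [if_neg (by omega), if_neg (by omega), if_pos hy]
      have := hf.mem y (by omega) hy
      omega
    by_cases h2 : x = n
    · subst h2
      simp only [gl, if_true, if_neg h1] at hy
      omega
    by_cases h3 : x < n
    · have hm := hf.mem x (by omega) h3
      have e1 : gl n f g x = f x := by
        unfold gl; rw [if_neg h1, if_neg h2, if_pos h3]
      rw [e1] at hy ⊢
      have e2 : gl n f g y = f y := by
        unfold gl; rw [if_neg (by omega), if_neg (by omega), if_pos (by omega)]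
      rw [e2]
      exact hf.nc x y (by omega) hxy hy h3
    · have hm := hg.mem (x - n) (by omega) (by omega)
      have e1 : gl n f g x = g (x - n) + n := by
        unfold gl; rw [if_neg h1, if_neg h2, if_neg h3]
      rw [e1] at hy ⊢
      have e2 : gl n f g y = g (y - n) + n := by
        unfold gl; rw [if_neg (by omega), if_neg (by omega), if_neg (by omega)]
      rw [e2]
      have := hg.nc (x - n) (y - n) (by omega) (by omega) (by omega) (by omega)
      omega

/-- every aligned matching is glued from its sheets -/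
theorem aligned_sheets (hn : 1 < n) (R : NCM n) (h : R.p 0 = n) :
    NCI 1 n R.p ∧ NCI 1 n (fun x => R.p (x + n) - n) ∧
      ∀ x, x < 2 * n → R.p x = gl n R.p (fun x => R.p (x + n) - n) x := by
  have hn0 : R.p n = 0 := R.p_symm (by omega) h
  -- points on the A side stay there
  have hA : ∀ x, 1 ≤ x → x < n → 1 ≤ R.p x ∧ R.p x < n := by
    intro x h1 h2
    have := R.nc.nc 0 x (by omega) (by rw [h]; exact h2) (by omega)
    rw [h] at this
    omega
  have hB : ∀ x, n < x → x < 2 * n → n < R.p x ∧ R.p x < 2 * n := by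
    intro x h1 h2
    have h3 := R.p_lt h2
    have h4 := R.p_p h2
    refine ⟨?_, h3⟩
    by_contra hc
    rcases Nat.lt_or_ge 0 (R.p x) with h5 | h5
    · rcases Nat.lt_or_ge (R.p x) n with h6 | h6
      · have := hA (R.p x) h5 h6
        omega
      · have h7 : R.p x = n := by omega
        rw [h7, hn0] at h4
        omega
    · have h7 : R.p x = 0 := by omega
      rw [h7, h] at h4
      omega
  refine ⟨⟨hA, fun x h1 h2 => R.p_p (by omega), fun x h1 h2 => R.p_ne (by omega), ?_⟩,
    ⟨?_, ?_, ?_, ?_⟩, ?_⟩
  · intro x y h1 h2 h3 h4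
    exact R.nc.nc x y h2 h3 (by omega)
  · intro x h1 h2
    have := hB (x + n) (by omega) (by omega)
    omega
  · intro x h1 h2
    have h3 := hB (x + n) (by omega) (by omega)
    have h4 := R.p_p (x := x + n) (by omega)
    rw [Nat.sub_add_cancel (by omega), h4]
    omega
  · intro x h1 h2
    have h3 := hB (x + n) (by omega) (by omega)
    have h4 := R.p_ne (x := x + n) (by omega)
    omega
  · intro x y h1 h2 h3 h4
    have h5 := hB (x + n) (by omega) (by omega)
    have h6 := R.nc.nc (x + n) (y + n) (by omega) (by omega) (by omega)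
    omega
  · intro x hx
    unfold gl
    split_ifs with h1 h2 h3
    · rw [h1, h]
    · rw [h2, hn0]
    · rfl
    · have h5 := hB x (by omega) hx
      have e : x - n + n = x := by omega
      beta_reduce
      rw [e]
      omega

/-- sum over the points of a sheet of twice the indicator of even smaller end -/
lemma sheet_sum {f : ℕ → ℕ} (hf : NCI 1 n f) :
    ∑ x ∈ Ico 1 n, ((if x % 2 = 0 ∧ x < f x then 2 else 0) +
      (if f x % 2 = 0 ∧ f x < x then 2 else 0) : ℤ) = 4 * (cost 1 n f : ℤ) := by
  rw [Finset.sum_add_distrib]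
  have h1 : ∑ x ∈ Ico 1 n, (if x % 2 = 0 ∧ x < f x then 2 else 0 : ℤ) = 2 * (cost 1 n f : ℤ) := by
    rw [← Finset.sum_filter, Finset.sum_const, cost]
    simp [mul_comm]
  have h2 : ∑ x ∈ Ico 1 n, (if f x % 2 = 0 ∧ f x < x then 2 else 0 : ℤ) =
      ∑ x ∈ Ico 1 n, (if x % 2 = 0 ∧ x < f x then 2 else 0 : ℤ) := by
    refine Finset.sum_bij (fun x _ => f x) ?_ ?_ ?_ ?_
    · intro x hx
      rw [mem_Ico] at hx ⊢
      exact hf.mem x hx.1 hx.2
    · intro x hx y hy h
      rw [mem_Ico] at hx hy
      have e1 := hf.inv x hx.1 hx.2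
      have e2 := hf.inv y hy.1 hy.2
      rw [← e1, ← e2, h]
    · intro y hy
      rw [mem_Ico] at hy
      exact ⟨f y, mem_Ico.2 (hf.mem y hy.1 hy.2), hf.inv y hy.1 hy.2⟩
    · intro x hx
      rw [mem_Ico] at hx
      rw [hf.inv x hx.1 hx.2]
  rw [h2, h1]
  ring

theorem U_gl (hn : n % 2 = 1) (h1 : 1 < n) {f g : ℕ → ℕ} (hf : NCI 1 n f) (hg : NCI 1 n g) :
    U (ofNC n _ (gl_nc h1 hf hg)) = 4 * ((cost 1 n f : ℤ) + cost 1 n g) := by
  have e0 : U (ofNC n _ (gl_nc h1 hf hg)) =
      ∑ x ∈ range (2 * n), (ws n x (gl n f g x) : ℤ) := by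
    unfold U
    apply Finset.sum_congr rfl
    intro x hx
    rw [ofNC_p _ (mem_range.1 hx)]
  have e1 : ∑ x ∈ range (2 * n), (ws n x (gl n f g x) : ℤ) =
      ∑ x ∈ range n, (ws n x (gl n f g x) : ℤ) +
      ∑ x ∈ range n, (ws n (n + x) (gl n f g (n + x)) : ℤ) := by
    rw [two_mul, Finset.sum_range_add]
  have hr : range n = insert 0 (Ico 1 n) := by
    ext x
    simp only [mem_range, mem_insert, mem_Ico]
    omega
  have h0 : (0 : ℕ) ∉ Ico 1 n := by simp
  rw [e0, e1, hr, Finset.sum_insert h0, Finset.sum_insert h0]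
  have a1 : (ws n 0 (gl n f g 0) : ℤ) = 0 := by
    have : gl n f g 0 = n := by simp [gl]
    rw [this, ws_needle (by omega)]
    rfl
  have a2 : (ws n (n + 0) (gl n f g (n + 0)) : ℤ) = 0 := by
    have : gl n f g (n + 0) = 0 := by
      unfold gl
      rw [if_neg (by omega), if_pos (by omega)]
    rw [this, Nat.add_zero, ws_comm, ws_needle (by omega)]
    rfl
  rw [a1, a2, zero_add, zero_add, mul_add]
  congr 1
  · rw [← sheet_sum hf]
    apply Finset.sum_congr rfl
    intro x hx
    rw [mem_Ico] at hx
    have hm := hf.mem x hx.1 hx.2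
    have hne := hf.ne x hx.1 hx.2
    have e : gl n f g x = f x := by
      unfold gl; rw [if_neg (by omega), if_neg (by omega), if_pos hx.2]
    rw [e]
    rcases lt_or_gt_of_ne hne with h | h
    · rw [ws_comm, ws_A hm.1 h hx.2]
      rw [if_neg (by omega : ¬ (x % 2 = 0 ∧ x < f x))]
      by_cases h2 : f x % 2 = 0
      · rw [if_pos h2, if_pos ⟨h2, h⟩]; rfl
      · rw [if_neg h2, if_neg (by omega)]; rfl
    · rw [ws_A hx.1 h hm.2]
      rw [if_neg (by omega : ¬ (f x % 2 = 0 ∧ f x < x))]
      by_cases h2 : x % 2 = 0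
      · rw [if_pos h2, if_pos ⟨h2, h⟩]; rfl
      · rw [if_neg h2, if_neg (by omega)]; rfl
  · rw [← sheet_sum hg]
    apply Finset.sum_congr rfl
    intro x hx
    rw [mem_Ico] at hx
    have hm := hg.mem x hx.1 hx.2
    have hne := hg.ne x hx.1 hx.2
    have e : gl n f g (n + x) = n + g x := by
      unfold gl
      rw [if_neg (by omega), if_neg (by omega), if_neg (by omega), Nat.add_sub_cancel_left]
      omega
    rw [e]
    rcases lt_or_gt_of_ne hne with h | h
    · rw [ws_comm, ws_B (by omega) (by omega), Nat.add_sub_cancel_left]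
      rw [if_neg (by omega : ¬ (x % 2 = 0 ∧ x < g x))]
      by_cases h2 : g x % 2 = 0
      · rw [if_pos h2, if_pos ⟨h2, h⟩]; rfl
      · rw [if_neg h2, if_neg (by omega)]; rfl
    · rw [ws_B (by omega) (by omega), Nat.add_sub_cancel_left]
      rw [if_neg (by omega : ¬ (g x % 2 = 0 ∧ g x < x))]
      by_cases h2 : x % 2 = 0
      · rw [if_pos h2, if_pos ⟨h2, h⟩]; rfl
      · rw [if_neg h2, if_neg (by omega)]; rfl

end Pool.Agent.Helper95.CF
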