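import Pool.Agent.Helper95.CFSheetDefs

/-! MP_717b2e_co, module SH: sheets. -/

namespace Pool.Agent.Helper95.CF

open Finset

variable {n : ℕ}

lemma NCI.lt_iff {lo hi : ℕ} {f : ℕ → ℕ} (h : NCI lo hi f) {x y : ℕ} (hx : lo ≤ x) (hx' : x < hi)
    (_ : x < f x) (hy : lo ≤ y) (hy' : y < hi) :
    (x < y ∧ y < f x) ↔ (x < f y ∧ f y < f x) := by
  constructor
  · rintro ⟨h1, h2⟩
    exact h.nc x y hx h1 h2 hx'
  · rintro ⟨h1, h2⟩
    have h3 := h.nc x (f y) hx h1 h2 hx'
    rwa [h.inv y hy hy'] at h3

/-- partners have opposite parity -/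
lemma NCI.parity {lo hi : ℕ} {f : ℕ → ℕ} (h : NCI lo hi f) {x : ℕ} (hx : lo ≤ x) (hx' : x < hi) :
    (x + f x) % 2 = 1 := by
  have key : ∀ x, lo ≤ x → x < hi → x < f x → (x + f x) % 2 = 1 := by
    intro x hx hx' hxf
    have hm := h.mem x hx hx'
    have h0 : ∑ _i ∈ Ioo x (f x), (1 : ZMod 2) = 0 := by
      refine Finset.sum_involution (fun a _ => f a) ?_ ?_ ?_ ?_
      · intro a ha; decide
      · intro a ha _
        rw [mem_Ioo] at ha
        exact h.ne a (by omega) (by omega)
      · intro a ha
        rw [mem_Ioo] at ha ⊢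
        exact h.nc x a hx ha.1 ha.2 hx'
      · intro a ha
        rw [mem_Ioo] at ha
        exact h.inv a (by omega) (by omega)
    rw [Finset.sum_const, Nat.card_Ioo, nsmul_one] at h0
    have h1 := (ZMod.natCast_eq_zero_iff _ _).1 h0
    obtain ⟨k, hk⟩ := h1
    omega
  have hm := h.mem x hx hx'
  rcases lt_or_gt_of_ne (h.ne x hx hx') with h1 | h1
  · have := key (f x) hm.1 hm.2 (by rw [h.inv x hx hx']; exact h1)
    rw [h.inv x hx hx'] at this
    omega
  · exact key x hx hx' h1

/-- the two first points: either matched together, or nested -/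
lemma NCI.front_cases {lo hi : ℕ} {f : ℕ → ℕ} (h : NCI lo hi f) (hl : lo + 2 ≤ hi) :
    (f lo = lo + 1 ∧ f (lo + 1) = lo) ∨
      (lo + 2 ≤ f (lo + 1) ∧ f (lo + 1) < f lo ∧ f lo < hi) := by
  have m0 := h.mem lo le_rfl (by omega)
  have m1 := h.mem (lo + 1) (by omega) (by omega)
  have n0 := h.ne lo le_rfl (by omega)
  have n1 := h.ne (lo + 1) (by omega) (by omega)
  by_cases h1 : f lo = lo + 1
  · left
    refine ⟨h1, ?_⟩
    rw [← h1, h.inv lo le_rfl (by omega)]
  · right
    have := h.nc lo (lo + 1) le_rfl (by omega) (by omega) (by omega)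
    omega

/-- the two last points: either matched together, or nested -/
lemma NCI.back_cases {lo hi : ℕ} {f : ℕ → ℕ} (h : NCI lo hi f) (hl : lo + 2 ≤ hi) :
    (f (hi - 1) = hi - 2 ∧ f (hi - 2) = hi - 1) ∨
      (lo ≤ f (hi - 1) ∧ f (hi - 1) < f (hi - 2) ∧ f (hi - 2) < hi - 2) := by
  have m0 := h.mem (hi - 1) (by omega) (by omega)
  have m1 := h.mem (hi - 2) (by omega) (by omega)
  have n0 := h.ne (hi - 1) (by omega) (by omega)
  have n1 := h.ne (hi - 2) (by omega) (by omega)
  have i0 := h.inv (hi - 1) (by omega) (by omega)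
  by_cases h1 : f (hi - 1) = hi - 2
  · left
    refine ⟨h1, ?_⟩
    rw [← h1, i0]
  · right
    have := h.nc (f (hi - 1)) (hi - 2) m0.1 (by omega) (by omega) (by omega)
    omega

theorem front_nci {lo hi : ℕ} {f : ℕ → ℕ} (h : NCI lo hi f) (hl : lo + 2 ≤ hi) :
    NCI (lo + 2) hi (front lo f) := by
  have i0 := h.inv lo le_rfl (by omega)
  have i1 := h.inv (lo + 1) (by omega) (by omega)
  rcases h.front_cases hl with ⟨e0, e1⟩ | ⟨c1, c2, c3⟩
  · have e : ∀ x, lo + 2 ≤ x → front lo f x = f x := by
      intro x hx
      unfold front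
      rw [if_neg (by omega), if_neg (by omega)]
    have hne : ∀ x, lo + 2 ≤ x → x < hi → lo + 2 ≤ f x := by
      intro x hx hx'
      have m := h.mem x (by omega) hx'
      have i := h.inv x (by omega) hx'
      by_contra hc
      have : f x = lo ∨ f x = lo + 1 := by omega
      rcases this with h1 | h1
      · rw [h1] at i; omega
      · rw [h1] at i; omega
    refine ⟨?_, ?_, ?_, ?_⟩
    · intro x hx hx'
      rw [e x hx]
      exact ⟨hne x hx hx', (h.mem x (by omega) hx').2⟩
    · intro x hx hx'
      rw [e x hx, e _ (hne x hx hx')]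
      exact h.inv x (by omega) hx'
    · intro x hx hx'
      rw [e x hx]
      exact h.ne x (by omega) hx'
    · intro x y hx hxy hy hx'
      rw [e x hx] at hy ⊢
      rw [e y (by omega)]
      exact h.nc x y (by omega) hxy hy hx'
  · have ew : front lo f (f lo) = f (lo + 1) := by unfold front; rw [if_pos rfl]
    have ew' : front lo f (f (lo + 1)) = f lo := by
      unfold front; rw [if_neg (by omega), if_pos rfl]
    have e : ∀ x, x ≠ f lo → x ≠ f (lo + 1) → front lo f x = f x := by
      intro x h1 h2
      unfold front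
      rw [if_neg h1, if_neg h2]
    have hne : ∀ x, lo + 2 ≤ x → x < hi → x ≠ f lo → x ≠ f (lo + 1) →
        lo + 2 ≤ f x ∧ f x < hi ∧ f x ≠ f lo ∧ f x ≠ f (lo + 1) := by
      intro x hx hx' h1 h2
      have m := h.mem x (by omega) hx'
      have i := h.inv x (by omega) hx'
      refine ⟨?_, m.2, ?_, ?_⟩
      · by_contra hc
        have : f x = lo ∨ f x = lo + 1 := by omega
        rcases this with h3 | h3
        · rw [h3] at i; omega
        · rw [h3] at i; omega
      · intro h3; rw [h3, i0] at i; omega
      · intro h3; rw [h3, i1] at i; omega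
    refine ⟨?_, ?_, ?_, ?_⟩
    · intro x hx hx'
      by_cases h1 : x = f lo
      · rw [h1, ew]; omega
      by_cases h2 : x = f (lo + 1)
      · rw [h2, ew']; omega
      rw [e x h1 h2]
      have := hne x hx hx' h1 h2
      omega
    · intro x hx hx'
      by_cases h1 : x = f lo
      · rw [h1, ew, ew']
      by_cases h2 : x = f (lo + 1)
      · rw [h2, ew', ew]
      have h3 := hne x hx hx' h1 h2
      rw [e x h1 h2, e _ h3.2.2.1 h3.2.2.2]
      exact h.inv x (by omega) hx'
    · intro x hx hx'
      by_cases h1 : x = f lo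
      · rw [h1, ew]; omega
      by_cases h2 : x = f (lo + 1)
      · rw [h2, ew']; omega
      rw [e x h1 h2]
      exact h.ne x (by omega) hx'
    · intro x y hx hxy hy hx'
      by_cases h1 : x = f lo
      · rw [h1, ew] at hy; omega
      by_cases h2 : x = f (lo + 1)
      · rw [h2, ew'] at hy ⊢
        rw [h2] at hxy
        have h3 : y ≠ f lo := by omega
        have h4 : y ≠ f (lo + 1) := by omega
        rw [e y h3 h4]
        have h5 := h.nc lo y le_rfl (by omega) hy (by omega)
        have h6 := hne y (by omega) (by omega) h3 h4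
        refine ⟨?_, h5.2⟩
        by_contra hc
        have h7 := h.nc (lo + 1) (f y) (by omega) (by omega) (by omega) (by omega)
        rw [h.inv y (by omega) (by omega)] at h7
        omega
      rw [e x h1 h2] at hy ⊢
      have hm := h.mem x (by omega) hx'
      have h3 := h.nc x y (by omega) hxy hy hx'
      have h4 : y ≠ f lo := by
        intro h5
        rw [h5, i0] at h3
        omega
      have h5 : y ≠ f (lo + 1) := by
        intro h6
        rw [h6, i1] at h3
        omega
      rw [e y h4 h5]
      exact h3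

theorem back_nci {lo hi : ℕ} {f : ℕ → ℕ} (h : NCI lo hi f) (hl : lo + 2 ≤ hi) :
    NCI lo (hi - 2) (back hi f) := by
  have i0 := h.inv (hi - 1) (by omega) (by omega)
  have i1 := h.inv (hi - 2) (by omega) (by omega)
  rcases h.back_cases hl with ⟨e0, e1⟩ | ⟨c1, c2, c3⟩
  · have e : ∀ x, x < hi - 2 → back hi f x = f x := by
      intro x hx
      unfold back
      rw [if_neg (by omega), if_neg (by omega)]
    have hne : ∀ x, lo ≤ x → x < hi - 2 → f x < hi - 2 := by
      intro x hx hx'
      have m := h.mem x (by omega) (by omega)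
      have i := h.inv x (by omega) (by omega)
      by_contra hc
      have : f x = hi - 1 ∨ f x = hi - 2 := by omega
      rcases this with h1 | h1
      · rw [h1] at i; omega
      · rw [h1] at i; omega
    refine ⟨?_, ?_, ?_, ?_⟩
    · intro x hx hx'
      rw [e x hx']
      exact ⟨(h.mem x hx (by omega)).1, hne x hx hx'⟩
    · intro x hx hx'
      rw [e x hx', e _ (hne x hx hx')]
      exact h.inv x (by omega) (by omega)
    · intro x hx hx'
      rw [e x hx']
      exact h.ne x (by omega) (by omega)
    · intro x y hx hxy hy hx'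
      have hm := h.mem x hx (by omega)
      have hne' := hne x hx hx'
      rw [e x hx'] at hy ⊢
      rw [e y (by omega)]
      exact h.nc x y (by omega) hxy hy (by omega)
  · have ew : back hi f (f (hi - 1)) = f (hi - 2) := by unfold back; rw [if_pos rfl]
    have ew' : back hi f (f (hi - 2)) = f (hi - 1) := by
      unfold back; rw [if_neg (by omega), if_pos rfl]
    have e : ∀ x, x ≠ f (hi - 1) → x ≠ f (hi - 2) → back hi f x = f x := by
      intro x h1 h2
      unfold back
      rw [if_neg h1, if_neg h2]
    have hne : ∀ x, lo ≤ x → x < hi - 2 → x ≠ f (hi - 1) → x ≠ f (hi - 2) →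
        lo ≤ f x ∧ f x < hi - 2 ∧ f x ≠ f (hi - 1) ∧ f x ≠ f (hi - 2) := by
      intro x hx hx' h1 h2
      have m := h.mem x (by omega) (by omega)
      have i := h.inv x (by omega) (by omega)
      refine ⟨m.1, ?_, ?_, ?_⟩
      · by_contra hc
        have : f x = hi - 1 ∨ f x = hi - 2 := by omega
        rcases this with h3 | h3
        · rw [h3] at i; omega
        · rw [h3] at i; omega
      · intro h3; rw [h3, i0] at i; omega
      · intro h3; rw [h3, i1] at i; omega
    refine ⟨?_, ?_, ?_, ?_⟩
    · intro x hx hx'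
      by_cases h1 : x = f (hi - 1)
      · rw [h1, ew]; omega
      by_cases h2 : x = f (hi - 2)
      · rw [h2, ew']; omega
      rw [e x h1 h2]
      have := hne x hx hx' h1 h2
      omega
    · intro x hx hx'
      by_cases h1 : x = f (hi - 1)
      · rw [h1, ew, ew']
      by_cases h2 : x = f (hi - 2)
      · rw [h2, ew', ew]
      have h3 := hne x hx hx' h1 h2
      rw [e x h1 h2, e _ h3.2.2.1 h3.2.2.2]
      exact h.inv x (by omega) (by omega)
    · intro x hx hx'
      by_cases h1 : x = f (hi - 1)
      · rw [h1, ew]; omega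
      by_cases h2 : x = f (hi - 2)
      · rw [h2, ew']; omega
      rw [e x h1 h2]
      exact h.ne x (by omega) (by omega)
    · intro x y hx hxy hy hx'
      by_cases h2 : x = f (hi - 2)
      · rw [h2, ew'] at hy; omega
      by_cases h1 : x = f (hi - 1)
      · rw [h1, ew] at hy ⊢
        rw [h1] at hxy
        have h3 : y ≠ f (hi - 1) := by omega
        have h4 : y ≠ f (hi - 2) := by omega
        rw [e y h3 h4]
        have h6 := hne y (by omega) (by omega) h3 h4
        -- chord (f (hi-1), hi-1) contains y
        have h5 := h.nc (f (hi - 1)) y (by omega) hxy (by omega) (by omega)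
        refine ⟨h5.1, ?_⟩
        by_contra hc
        have h7 := h.nc (f (hi - 2)) (f y) (by omega) (by omega) (by omega) (by omega)
        rw [h.inv y (by omega) (by omega)] at h7
        omega
      have hm := h.mem x (by omega) (by omega)
      have hn2 := hne x hx hx' h1 h2
      rw [e x h1 h2] at hy ⊢
      have h3 := h.nc x y (by omega) hxy hy (by omega)
      have h4 : y ≠ f (hi - 1) := by
        intro h5
        rw [h5, i0] at h3
        omega
      have h5 : y ≠ f (hi - 2) := by
        intro h6
        rw [h6, i1] at h3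
        omega
      rw [e y h4 h5]
      exact h3

theorem comb_nci {lo hi c : ℕ} {f g : ℕ → ℕ} (hf : NCI lo (c + 1) f) (hg : NCI (c - 1) hi g)
    (h1 : lo < c) (h2 : c < hi) : NCI lo hi (comb c f g) := by
  have mfc := hf.mem c (by omega) (by omega)
  have nfc := hf.ne c (by omega) (by omega)
  have ifc := hf.inv c (by omega) (by omega)
  have mgc := hg.mem (c - 1) (by omega) (by omega)
  have ngc := hg.ne (c - 1) (by omega) (by omega)
  have igc := hg.inv (c - 1) (by omega) (by omega)
  have A1 : ∀ x, x < c → f x = c → comb c f g x = g (c - 1) := by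
    intro x h3 h4; unfold comb; rw [if_pos h3, if_pos h4]
  have A2 : ∀ x, x < c → f x ≠ c → comb c f g x = f x := by
    intro x h3 h4; unfold comb; rw [if_pos h3, if_neg h4]
  have B1 : ∀ x, c ≤ x → g x = c - 1 → comb c f g x = f c := by
    intro x h3 h4; unfold comb; rw [if_neg (by omega), if_pos h4]
  have B2 : ∀ x, c ≤ x → g x ≠ c - 1 → comb c f g x = g x := by
    intro x h3 h4; unfold comb; rw [if_neg (by omega), if_neg h4]
  refine ⟨?_, ?_, ?_, ?_⟩
  · intro x hx hx'
    rcases Nat.lt_or_ge x c with h3 | h3
    · have m := hf.mem x hx (by omega)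
      by_cases h4 : f x = c
      · rw [A1 x h3 h4]; omega
      · rw [A2 x h3 h4]; omega
    · have m := hg.mem x (by omega) hx'
      by_cases h4 : g x = c - 1
      · rw [B1 x h3 h4]; omega
      · rw [B2 x h3 h4]; omega
  · intro x hx hx'
    rcases Nat.lt_or_ge x c with h3 | h3
    · have m := hf.mem x hx (by omega)
      have i := hf.inv x hx (by omega)
      by_cases h4 : f x = c
      · rw [A1 x h3 h4, B1 _ (by omega) igc]
        rw [h4] at i; exact i
      · rw [A2 x h3 h4, A2 _ (by omega) (by omega), i]
    · have m := hg.mem x (by omega) hx'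
      have i := hg.inv x (by omega) hx'
      by_cases h4 : g x = c - 1
      · rw [B1 x h3 h4, A1 _ (by omega) ifc]
        rw [h4] at i; exact i
      · rw [B2 x h3 h4, B2 _ (by omega) (by omega), i]
  · intro x hx hx'
    rcases Nat.lt_or_ge x c with h3 | h3
    · have m := hf.ne x hx (by omega)
      by_cases h4 : f x = c
      · rw [A1 x h3 h4]; omega
      · rw [A2 x h3 h4]; omega
    · have m := hg.ne x (by omega) hx'
      by_cases h4 : g x = c - 1
      · rw [B1 x h3 h4]; omega
      · rw [B2 x h3 h4]; omega
  · intro x y hx hxy hy hx'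
    rcases Nat.lt_or_ge x c with h3 | h3
    · have m := hf.mem x hx (by omega)
      by_cases h4 : f x = c
      · rw [A1 x h3 h4] at hy ⊢
        rcases Nat.lt_or_ge y c with h5 | h5
        · have h6 := hf.nc x y hx hxy (by omega) (by omega)
          rw [A2 y h5 (by omega)]
          omega
        · have h6 := hg.nc (c - 1) y le_rfl (by omega) hy (by omega)
          rw [B2 y h5 (by omega)]
          omega
      · rw [A2 x h3 h4] at hy ⊢
        have h6 := hf.nc x y hx hxy (by omega) (by omega)
        rw [A2 y (by omega) (by omega)]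
        omega
    · have m := hg.mem x (by omega) hx'
      by_cases h4 : g x = c - 1
      · rw [B1 x h3 h4] at hy; omega
      · rw [B2 x h3 h4] at hy ⊢
        have h6 := hg.nc x y (by omega) hxy hy hx'
        rw [B2 y (by omega) (by omega)]
        omega

theorem front_comb {lo hi c : ℕ} {f g : ℕ → ℕ} (hf : NCI lo (c + 1) f) (hg : NCI (c - 1) hi g)
    (h1 : lo + 2 < c) (h2 : c < hi) {x : ℕ} (hx : lo + 2 ≤ x) (hx' : x < hi) :
    front lo (comb c f g) x = comb c (front lo f) g x := by
  have m0 := hf.mem lo (by omega) (by omega)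
  have i0 := hf.inv lo (by omega) (by omega)
  have m1 := hf.mem (lo + 1) (by omega) (by omega)
  have i1 := hf.inv (lo + 1) (by omega) (by omega)
  have ifc := hf.inv c (by omega) (by omega)
  have mgc := hg.mem (c - 1) (by omega) (by omega)
  have ngc := hg.ne (c - 1) (by omega) (by omega)
  have igc := hg.inv (c - 1) (by omega) (by omega)
  have hne1 : f (lo + 1) ≠ c := by
    rcases hf.front_cases (by omega) with ⟨e0, e1⟩ | ⟨c1, c2, c3⟩ <;> omega
  have F1 : comb c f g (lo + 1) = f (lo + 1) := by
    unfold comb; rw [if_pos (by omega), if_neg hne1]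
  have hff : f lo ≠ f (lo + 1) := by
    intro he; rw [he, i1] at i0; omega
  by_cases h3 : f lo = c
  · have F0 : comb c f g lo = g (c - 1) := by
      unfold comb; rw [if_pos (by omega), if_pos h3]
    unfold front
    rw [F0, F1]
    by_cases hxv : x = g (c - 1)
    · rw [if_pos hxv]
      unfold comb; beta_reduce
      rw [if_neg (by omega), hxv, if_pos igc, if_pos h3.symm]
    · rw [if_neg hxv]
      by_cases hxw : x = f (lo + 1)
      · rw [if_pos hxw]
        unfold comb; beta_reduce
        rw [if_pos (by omega), if_neg (by omega : ¬ x = f lo), if_pos hxw, if_pos h3]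
      · rw [if_neg hxw]
        rcases Nat.lt_or_ge x c with h4 | h4
        · unfold comb; beta_reduce
          rw [if_pos h4, if_pos h4, if_neg (by omega : ¬ x = f lo), if_neg hxw]
        · have hgx : g x ≠ c - 1 := by
            intro he
            have := hg.inv x (by omega) hx'
            rw [he] at this
            omega
          unfold comb; beta_reduce
          rw [if_neg (by omega : ¬ x < c), if_neg (by omega : ¬ x < c), if_neg hgx, if_neg hgx]
  · have F0 : comb c f g lo = f lo := by
      unfold comb; rw [if_pos (by omega), if_neg h3]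
    unfold front
    rw [F0, F1]
    by_cases hxv : x = f lo
    · rw [if_pos hxv]
      unfold comb; beta_reduce
      rw [if_pos (by omega), if_pos hxv, if_neg hne1]
    · rw [if_neg hxv]
      by_cases hxw : x = f (lo + 1)
      · rw [if_pos hxw]
        unfold comb; beta_reduce
        rw [if_pos (by omega), if_neg hxv, if_pos hxw, if_neg h3]
      · rw [if_neg hxw]
        rcases Nat.lt_or_ge x c with h4 | h4
        · unfold comb; beta_reduce
          rw [if_pos h4, if_pos h4, if_neg hxv, if_neg hxw]
        · unfold comb; beta_reduce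
          rw [if_neg (by omega : ¬ x < c), if_neg (by omega : ¬ x < c)]
          rw [if_neg (by omega : ¬ c = f lo), if_neg (by omega : ¬ c = f (lo + 1))]

theorem back_comb {lo hi c : ℕ} {f g : ℕ → ℕ} (hf : NCI lo (c + 1) f) (hg : NCI (c - 1) hi g)
    (h1 : lo < c) (h2 : c + 2 < hi) {x : ℕ} (hx : lo ≤ x) (hx' : x < hi - 2) :
    back hi (comb c f g) x = comb c f (back hi g) x := by
  have m0 := hg.mem (hi - 1) (by omega) (by omega)
  have i0 := hg.inv (hi - 1) (by omega) (by omega)
  have m1 := hg.mem (hi - 2) (by omega) (by omega)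
  have i1 := hg.inv (hi - 2) (by omega) (by omega)
  have igc := hg.inv (c - 1) (by omega) (by omega)
  have mfc := hf.mem c (by omega) (by omega)
  have nfc := hf.ne c (by omega) (by omega)
  have ifc := hf.inv c (by omega) (by omega)
  have hne1 : g (hi - 2) ≠ c - 1 := by
    rcases hg.back_cases (by omega) with ⟨e0, e1⟩ | ⟨c1, c2, c3⟩ <;> omega
  have F1 : comb c f g (hi - 2) = g (hi - 2) := by
    unfold comb; rw [if_neg (by omega), if_neg hne1]
  have hff : g (hi - 1) ≠ g (hi - 2) := by
    intro he; rw [he, i1] at i0; omega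
  by_cases h3 : g (hi - 1) = c - 1
  · have F0 : comb c f g (hi - 1) = f c := by
      unfold comb; rw [if_neg (by omega), if_pos h3]
    unfold back
    rw [F0, F1]
    by_cases hxv : x = f c
    · rw [if_pos hxv]
      unfold comb; beta_reduce
      rw [if_pos (by omega), hxv, if_pos ifc, if_pos h3.symm]
    · rw [if_neg hxv]
      by_cases hxw : x = g (hi - 2)
      · rw [if_pos hxw]
        unfold comb; beta_reduce
        rw [if_neg (by omega), if_neg (by omega : ¬ x = g (hi - 1)), if_pos hxw, if_pos h3]
      · rw [if_neg hxw]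
        rcases Nat.lt_or_ge x c with h4 | h4
        · have hgx : f x ≠ c := by
            intro he
            have := hf.inv x (by omega) (by omega)
            rw [he] at this
            omega
          unfold comb; beta_reduce
          rw [if_pos h4, if_pos h4, if_neg hgx, if_neg hgx]
        · unfold comb; beta_reduce
          rw [if_neg (by omega : ¬ x < c), if_neg (by omega : ¬ x < c),
            if_neg (by omega : ¬ x = g (hi - 1)), if_neg hxw]
  · have F0 : comb c f g (hi - 1) = g (hi - 1) := by
      unfold comb; rw [if_neg (by omega), if_neg h3]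
    unfold back
    rw [F0, F1]
    by_cases hxv : x = g (hi - 1)
    · rw [if_pos hxv]
      unfold comb; beta_reduce
      rw [if_neg (by omega), if_pos hxv, if_neg hne1]
    · rw [if_neg hxv]
      by_cases hxw : x = g (hi - 2)
      · rw [if_pos hxw]
        unfold comb; beta_reduce
        rw [if_neg (by omega), if_neg hxv, if_pos hxw, if_neg h3]
      · rw [if_neg hxw]
        rcases Nat.lt_or_ge x c with h4 | h4
        · unfold comb; beta_reduce
          rw [if_pos h4, if_pos h4]
          rw [if_neg (by omega : ¬ c - 1 = g (hi - 1)), if_neg (by omega : ¬ c - 1 = g (hi - 2))]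
        · unfold comb; beta_reduce
          rw [if_neg (by omega : ¬ x < c), if_neg (by omega : ¬ x < c), if_neg hxv, if_neg hxw]

theorem cost_front {lo hi : ℕ} {f : ℕ → ℕ} (h : NCI lo hi f) (hl : lo + 2 ≤ hi)
    (hlo : lo % 2 = 1) :
    cost lo hi f = cost (lo + 2) hi (front lo f) + (if f lo = lo + 1 then 0 else 1) := by
  have i0 := h.inv lo le_rfl (by omega)
  have i1 := h.inv (lo + 1) (by omega) (by omega)
  have p1 := h.parity (x := lo + 1) (by omega) (by omega)
  have hr : Ico lo hi = insert lo (insert (lo + 1) (Ico (lo + 2) hi)) := by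
    ext x; simp only [mem_Ico, mem_insert]; omega
  have hnot : ¬ (lo % 2 = 0 ∧ lo < f lo) := by omega
  have hrest : (Ico (lo + 2) hi).filter (fun x => x % 2 = 0 ∧ x < f x) =
      (Ico (lo + 2) hi).filter (fun x => x % 2 = 0 ∧ x < front lo f x) := by
    apply Finset.filter_congr
    intro x hx
    rw [mem_Ico] at hx
    unfold front
    rcases h.front_cases hl with ⟨e0, e1⟩ | ⟨c1, c2, c3⟩
    · rw [if_neg (by omega), if_neg (by omega)]
    · split_ifs with h1 h2
      · rw [h1, i0]; omega
      · rw [h2, i1]; omega
      · exact Iff.rfl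
  unfold cost
  rw [hr, Finset.filter_insert, if_neg hnot, Finset.filter_insert, ← hrest]
  rcases h.front_cases hl with ⟨e0, e1⟩ | ⟨c1, c2, c3⟩
  · rw [if_neg (by omega), if_pos e0]
    rfl
  · rw [if_pos (by omega), if_neg (by omega), Finset.card_insert_of_notMem]
    simp

theorem cost_back {lo hi : ℕ} {f : ℕ → ℕ} (h : NCI lo hi f) (hl : lo + 2 ≤ hi)
    (hlo : lo % 2 = 1) (hhi : hi % 2 = 1) :
    cost lo hi f = cost lo (hi - 2) (back hi f) + (if f (hi - 1) = hi - 2 then 0 else 1) := by
  have i0 := h.inv (hi - 1) (by omega) (by omega)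
  have i1 := h.inv (hi - 2) (by omega) (by omega)
  have p1 := h.parity (x := hi - 1) (by omega) (by omega)
  have p2 := h.parity (x := hi - 2) (by omega) (by omega)
  have hr : Ico lo hi = insert (hi - 1) (insert (hi - 2) (Ico lo (hi - 2))) := by
    ext x; simp only [mem_Ico, mem_insert]; omega
  have hnot2 : ¬ ((hi - 2) % 2 = 0 ∧ (hi - 2) < f (hi - 2)) := by omega
  have hm := h.mem (hi - 1) (by omega) (by omega)
  have hnot1 : ¬ ((hi - 1) % 2 = 0 ∧ (hi - 1) < f (hi - 1)) := by omega
  unfold cost
  rw [hr, Finset.filter_insert, if_neg hnot1, Finset.filter_insert, if_neg hnot2]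
  rcases h.back_cases hl with ⟨e0, e1⟩ | ⟨c1, c2, c3⟩
  · rw [if_pos e0, Nat.add_zero]
    congr 1
    apply Finset.filter_congr
    intro x hx
    rw [mem_Ico] at hx
    unfold back
    rw [if_neg (by omega), if_neg (by omega)]
  · rw [if_neg (by omega)]
    have hs : (Ico lo (hi - 2)).filter (fun x => x % 2 = 0 ∧ x < f x) =
        insert (f (hi - 2)) ((Ico lo (hi - 2)).filter (fun x => x % 2 = 0 ∧ x < back hi f x)) := by
      ext x
      simp only [mem_insert, mem_filter, mem_Ico]
      unfold back
      by_cases h1 : x = f (hi - 1)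
      · rw [if_pos h1]
        have : f x = hi - 1 := by rw [h1, i0]
        omega
      · rw [if_neg h1]
        by_cases h2 : x = f (hi - 2)
        · have : f x = hi - 2 := by rw [h2, i1]
          rw [if_pos h2]
          omega
        · rw [if_neg h2]
          omega
    rw [hs, Finset.card_insert_of_notMem]
    simp only [mem_filter, mem_Ico]
    unfold back
    rw [if_neg (by omega), if_pos rfl]
    omega

end Pool.Agent.Helper95.CF
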