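import Pool.Agent.Helper12.CFGlue
import Pool.Agent.Helper12.CFSheet

/-! MP_717b2e_co, module SW: composition of the sweep. -/

namespace Pool.Agent.Helper95.CF

open Finset

variable {n : ℕ}

/-- translate down -/
lemma NCI.down {lo hi s : ℕ} {f : ℕ → ℕ} (h : NCI (lo + s) (hi + s) f) :
    NCI lo hi (fun x => f (x + s) - s) := by
  refine ⟨?_, ?_, ?_, ?_⟩
  · intro x hx hx'
    have := h.mem (x + s) (by omega) (by omega)
    omega
  · intro x hx hx'
    have h1 := h.mem (x + s) (by omega) (by omega)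
    have h2 := h.inv (x + s) (by omega) (by omega)
    rw [Nat.sub_add_cancel (by omega), h2]
    omega
  · intro x hx hx'
    have h1 := h.mem (x + s) (by omega) (by omega)
    have h2 := h.ne (x + s) (by omega) (by omega)
    omega
  · intro x y hx hxy hy hx'
    beta_reduce at hy ⊢
    have h1 := h.nc (x + s) (y + s) (by omega) (by omega) (by omega) (by omega)
    omega

/-- translate up -/
lemma NCI.up {lo hi s : ℕ} {f : ℕ → ℕ} (h : NCI lo hi f) :
    NCI (lo + s) (hi + s) (fun x => f (x - s) + s) := by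
  refine ⟨?_, ?_, ?_, ?_⟩
  · intro x hx hx'
    have := h.mem (x - s) (by omega) (by omega)
    omega
  · intro x hx hx'
    have h1 := h.mem (x - s) (by omega) (by omega)
    have h2 := h.inv (x - s) (by omega) (by omega)
    rw [Nat.add_sub_cancel, h2]
    omega
  · intro x hx hx'
    have h1 := h.mem (x - s) (by omega) (by omega)
    have h2 := h.ne (x - s) (by omega) (by omega)
    omega
  · intro x y hx hxy hy hx'
    beta_reduce at hy ⊢
    have h1 := h.nc (x - s) (y - s) (by omega) (by omega) (by omega) (by omega)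
    omega

theorem shift2_nci {lo hi : ℕ} {f : ℕ → ℕ} (h : NCI (lo + 2) (hi + 2) f) :
    NCI lo hi (shift2 f) := h.down

/-- iterated fronts -/
def frt (f : ℕ → ℕ) : ℕ → ℕ → ℕ
  | 0 => f
  | t + 1 => front (2 * t + 1) (frt f t)

/-- iterated backs, counted from the top `hi` -/
def bkt (hi : ℕ) (g : ℕ → ℕ) : ℕ → ℕ → ℕ
  | 0 => g
  | s + 1 => back (hi - 2 * s) (bkt hi g s)

lemma frt_nci {f : ℕ → ℕ} (hf : NCI 1 n f) (t : ℕ) (ht : 2 * t + 1 ≤ n) :
    NCI (2 * t + 1) n (frt f t) := by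
  induction t with
  | zero => exact hf
  | succ t ih =>
    have := front_nci (ih (by omega)) (by omega)
    exact this

lemma bkt_nci {lo hi : ℕ} {g : ℕ → ℕ} (hg : NCI lo hi g) (s : ℕ) (hs : lo + 2 * s ≤ hi) :
    NCI lo (hi - 2 * s) (bkt hi g s) := by
  induction s with
  | zero => exact hg
  | succ s ih =>
    have := back_nci (ih (by omega)) (by omega)
    have e : hi - 2 * s - 2 = hi - 2 * (s + 1) := by omega
    rw [e] at this
    exact this

/-- the sheet at time `t`, on `[2t+1, n+2t)`; `T = (n-1)/2`, `h` is the final sheet on `[1,n)` -/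
def shA (n : ℕ) (f h : ℕ → ℕ) (t : ℕ) : ℕ → ℕ :=
  comb (n - 1) (frt f t) (bkt (2 * n - 3) (fun x => h (x - (n - 3)) + (n - 3)) ((n - 3) / 2 - t))

/-- the back part at time `t` -/
def bkA (n : ℕ) (h : ℕ → ℕ) (t : ℕ) : ℕ → ℕ :=
  bkt (2 * n - 3) (fun x => h (x - (n - 3)) + (n - 3)) ((n - 3) / 2 - t)

lemma shA_eq (n : ℕ) (f h : ℕ → ℕ) (t : ℕ) : shA n f h t = comb (n - 1) (frt f t) (bkA n h t) := rfl

lemma bkA_nci (hn : n % 2 = 1) (h3 : 3 ≤ n) {h : ℕ → ℕ} (hh : NCI 1 n h) (t : ℕ)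
    (ht : 2 * t + 3 ≤ n) : NCI (n - 2) (n + 2 * t) (bkA n h t) := by
  have h1 : NCI (1 + (n - 3)) (n + (n - 3)) (fun x => h (x - (n - 3)) + (n - 3)) := hh.up
  have e1 : 1 + (n - 3) = n - 2 := by omega
  have e2 : n + (n - 3) = 2 * n - 3 := by omega
  rw [e1, e2] at h1
  have h2 := bkt_nci h1 ((n - 3) / 2 - t) (by omega)
  have e3 : 2 * n - 3 - 2 * ((n - 3) / 2 - t) = n + 2 * t := by omega
  rw [e3] at h2
  exact h2

lemma bkA_back (hn : n % 2 = 1) (h : ℕ → ℕ) (t : ℕ) (ht : 2 * t + 5 ≤ n) :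
    bkA n h t = back (n + 2 * t + 2) (bkA n h (t + 1)) := by
  unfold bkA
  have e : (n - 3) / 2 - t = ((n - 3) / 2 - (t + 1)) + 1 := by omega
  have e3 : 2 * n - 3 - 2 * ((n - 3) / 2 - (t + 1)) = n + 2 * t + 2 := by omega
  rw [e]
  show back (2 * n - 3 - 2 * ((n - 3) / 2 - (t + 1))) _ = _
  rw [e3]

lemma shA_nci (hn : n % 2 = 1) (h3 : 3 ≤ n) {f h : ℕ → ℕ} (hf : NCI 1 n f) (hh : NCI 1 n h) (t : ℕ)
    (ht : 2 * t + 3 ≤ n) : NCI (1 + 2 * t) (n + 2 * t) (shA n f h t) := by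
  have h1 := frt_nci hf t (by omega)
  have h2 := bkA_nci hn h3 hh t ht
  have e1 : n - 1 + 1 = n := by omega
  have e2 : n - 1 - 1 = n - 2 := by omega
  have := comb_nci (lo := 2 * t + 1) (hi := n + 2 * t) (c := n - 1) (f := frt f t)
    (g := bkA n h t) (by rw [e1]; exact h1) (by rw [e2]; exact h2) (by omega) (by omega)
  rw [Nat.add_comm 1]
  exact this

/-- the relation between consecutive sheets -/
lemma shA_rel (hn : n % 2 = 1) (h3 : 3 ≤ n) {f h : ℕ → ℕ} (hf : NCI 1 n f) (hh : NCI 1 n h) (t : ℕ)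
    (ht : 2 * t + 5 ≤ n) {x : ℕ} (hx : 2 * t + 3 ≤ x) (hx' : x < n + 2 * t) :
    front (2 * t + 1) (shA n f h t) x = back (n + 2 * t + 2) (shA n f h (t + 1)) x := by
  have e1 : n - 1 + 1 = n := by omega
  have e2 : n - 1 - 1 = n - 2 := by omega
  have a1 := frt_nci hf t (by omega)
  have a2 := frt_nci hf (t + 1) (by omega)
  have b1 := bkA_nci hn h3 hh t (by omega)
  have b2 := bkA_nci hn h3 hh (t + 1) (by omega)
  rw [shA_eq, shA_eq]
  rw [front_comb (hi := n + 2 * t) (by rw [e1]; exact a1) (by rw [e2]; exact b1) (by omega)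
    (by omega) (by omega) hx']
  rw [back_comb (lo := 2 * (t + 1) + 1) (by rw [e1]; exact a2) (by rw [e2]; exact b2) (by omega)
    (by omega) (by omega) (by omega)]
  rw [← bkA_back hn h t ht]
  rfl

/-- the values of the sheet at its first two points -/
lemma shA_first (hn : n % 2 = 1) (h3 : 3 ≤ n) {f h : ℕ → ℕ} (hf : NCI 1 n f) (hh : NCI 1 n h)
    (t : ℕ) (ht : 2 * t + 5 ≤ n) :
    (shA n f h t (2 * t + 1) = 2 * t + 2 ↔ frt f t (2 * t + 1) = 2 * t + 2) ∧
    (frt f t (2 * t + 1) ≠ 2 * t + 2 → shA n f h t (2 * t + 2) < n - 1) := by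
  have a1 := frt_nci hf t (by omega)
  have b1 := bkA_nci hn h3 hh t (by omega)
  have m := b1.mem (n - 2) (by omega) (by omega)
  have n' := b1.ne (n - 2) (by omega) (by omega)
  rw [shA_eq]
  have e2 : n - 1 - 1 = n - 2 := by omega
  constructor
  · unfold comb
    rw [if_pos (by omega), e2]
    split_ifs with h5
    · rw [h5]; omega
    · rfl
  · intro h4
    rcases a1.front_cases (by omega) with ⟨e0, _⟩ | ⟨c1, c2, c3⟩
    · exact absurd e0 h4
    · have e : 2 * t + 1 + 1 = 2 * t + 2 := by omega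
      rw [e] at c1 c2
      unfold comb
      rw [if_pos (by omega), if_neg (by omega)]
      omega

/-- the values of the sheet at its last two points -/
lemma shA_last (hn : n % 2 = 1) (h3 : 3 ≤ n) {f h : ℕ → ℕ} (hf : NCI 1 n f) (hh : NCI 1 n h)
    (t : ℕ) (ht : 2 * t + 5 ≤ n) :
    (shA n f h (t + 1) (n + 2 * t + 1) = n + 2 * t ↔ bkA n h (t + 1) (n + 2 * t + 1) = n + 2 * t) ∧
    (bkA n h (t + 1) (n + 2 * t + 1) ≠ n + 2 * t → n - 1 ≤ shA n f h (t + 1) (n + 2 * t)) := by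
  have a1 := frt_nci hf (t + 1) (by omega)
  have b1 := bkA_nci hn h3 hh (t + 1) (by omega)
  have m := a1.mem (n - 1) (by omega) (by omega)
  rw [shA_eq]
  have e2 : n - 1 - 1 = n - 2 := by omega
  constructor
  · unfold comb
    rw [if_neg (by omega), e2]
    split_ifs with h5
    · rw [h5]; omega
    · rfl
  · intro h4
    have e3 : n + 2 * (t + 1) - 1 = n + 2 * t + 1 := by omega
    have e4 : n + 2 * (t + 1) - 2 = n + 2 * t := by omega
    rcases b1.back_cases (by omega) with ⟨e0, _⟩ | ⟨c1, c2, c3⟩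
    · rw [e3, e4] at e0
      exact absurd e0 h4
    · rw [e3] at c1 c2
      rw [e4] at c2 c3
      unfold comb
      rw [if_neg (by omega), if_neg (by omega)]
      omega

lemma shA_zero (hn : n % 2 = 1) (h3 : 3 ≤ n) {f h : ℕ → ℕ} (hh : NCI 1 n h)
    {x : ℕ} (hx' : x < n) : shA n f h 0 x = f x := by
  have b1 := bkA_nci hn h3 hh 0 (by omega)
  have m := b1.mem (n - 2) (by omega) (by omega)
  have n' := b1.ne (n - 2) (by omega) (by omega)
  have e2 : n - 1 - 1 = n - 2 := by omega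
  have e3 : bkA n h 0 (n - 2) = n - 1 := by omega
  have e4 : bkA n h 0 (n - 1) = n - 2 := by rw [← e3, b1.inv (n - 2) (by omega) (by omega)]
  rw [shA_eq]
  show comb (n - 1) f (bkA n h 0) x = f x
  unfold comb
  rw [e2, e3]
  by_cases h5 : x < n - 1
  · rw [if_pos h5]
    split_ifs with h6
    · exact h6.symm
    · rfl
  · have h6 : x = n - 1 := by omega
    rw [if_neg h5, h6, if_pos e4]

lemma shA_top (hn : n % 2 = 1) (h3 : 3 ≤ n) {f h : ℕ → ℕ} (hf : NCI 1 n f)
    {x : ℕ} (hx : n - 2 ≤ x) :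
    shA n f h ((n - 3) / 2) x = h (x - (n - 3)) + (n - 3) := by
  have a1 := frt_nci hf ((n - 3) / 2) (by omega)
  have e1 : 2 * ((n - 3) / 2) + 1 = n - 2 := by omega
  rw [e1] at a1
  have m := a1.mem (n - 2) (by omega) (by omega)
  have n' := a1.ne (n - 2) (by omega) (by omega)
  have e2 : n - 1 - 1 = n - 2 := by omega
  have e3 : frt f ((n - 3) / 2) (n - 2) = n - 1 := by omega
  have e4 : frt f ((n - 3) / 2) (n - 1) = n - 2 := by
    rw [← e3, a1.inv (n - 2) (by omega) (by omega)]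
  have e5 : bkA n h ((n - 3) / 2) = fun x => h (x - (n - 3)) + (n - 3) := by
    unfold bkA
    rw [Nat.sub_self]
    rfl
  have e6 : bkA n h ((n - 3) / 2) x = h (x - (n - 3)) + (n - 3) := by rw [e5]
  rw [shA_eq, ← e6]
  unfold comb
  rw [e2, e4]
  by_cases h5 : x < n - 1
  · have h6 : x = n - 2 := by omega
    rw [if_pos h5, h6, if_pos e3]
  · rw [if_neg h5]
    split_ifs with h6
    · exact h6.symm
    · rfl

/-- cost of the translated sheet -/
lemma cost_up {lo hi s : ℕ} (hs : s % 2 = 0) (f : ℕ → ℕ) :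
    cost (lo + s) (hi + s) (fun x => f (x - s) + s) = cost lo hi f := by
  unfold cost
  symm
  refine Finset.card_bij (fun x _ => x + s) ?_ ?_ ?_
  · intro x hx
    rw [mem_filter, mem_Ico] at hx ⊢
    beta_reduce
    rw [Nat.add_sub_cancel]
    omega
  · intro x _ y _ h
    beta_reduce at h
    omega
  · intro x hx
    rw [mem_filter, mem_Ico] at hx
    beta_reduce at hx
    refine ⟨x - s, ?_, by omega⟩
    rw [mem_filter, mem_Ico]
    omega

lemma cost_bkA_top (hn : n % 2 = 1) (h3 : 3 ≤ n) (h : ℕ → ℕ) :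
    cost (n - 2) (n + 2 * ((n - 3) / 2)) (bkA n h ((n - 3) / 2)) = cost 1 n h := by
  have e5 : bkA n h ((n - 3) / 2) = fun x => h (x - (n - 3)) + (n - 3) := by
    unfold bkA
    rw [Nat.sub_self]
    rfl
  rw [e5]
  have e1 : n - 2 = 1 + (n - 3) := by omega
  have e2 : n + 2 * ((n - 3) / 2) = n + (n - 3) := by omega
  rw [e2]
  conv_lhs => rw [e1]
  exact cost_up (by omega) h

lemma cost_frt (hn : n % 2 = 1) {f : ℕ → ℕ} (hf : NCI 1 n f) (t : ℕ) (ht : 2 * t + 5 ≤ n) :
    cost (2 * t + 1) n (frt f t) = cost (2 * (t + 1) + 1) n (frt f (t + 1)) +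
      (if frt f t (2 * t + 1) = 2 * t + 2 then 0 else 1) := by
  have a1 := frt_nci hf t (by omega)
  exact cost_front a1 (by omega) (by omega)

lemma cost_bkA (hn : n % 2 = 1) (h3 : 3 ≤ n) {h : ℕ → ℕ} (hh : NCI 1 n h) (t : ℕ)
    (ht : 2 * t + 5 ≤ n) :
    cost (n - 2) (n + 2 * (t + 1)) (bkA n h (t + 1)) = cost (n - 2) (n + 2 * t) (bkA n h t) +
      (if bkA n h (t + 1) (n + 2 * t + 1) = n + 2 * t then 0 else 1) := by
  have b1 := bkA_nci hn h3 hh (t + 1) (by omega)
  have := cost_back b1 (by omega) (by omega) (by omega)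
  have e3 : n + 2 * (t + 1) - 1 = n + 2 * t + 1 := by omega
  have e4 : n + 2 * (t + 1) - 2 = n + 2 * t := by omega
  rw [e3, e4] at this
  rw [bkA_back hn h t ht]
  exact this

/-- the sheet translated to `[1, n)` -/
def shT (n : ℕ) (f h : ℕ → ℕ) (t : ℕ) : ℕ → ℕ := fun x => shA n f h t (x + 2 * t) - 2 * t

lemma shT_nci (hn : n % 2 = 1) (h3 : 3 ≤ n) {f h : ℕ → ℕ} (hf : NCI 1 n f) (hh : NCI 1 n h) (t : ℕ)
    (ht : 2 * t + 3 ≤ n) : NCI 1 n (shT n f h t) :=
  (shA_nci hn h3 hf hh t ht).down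

/-- the next sheet translated to `[3, n+2)` -/
def shN (n : ℕ) (f h : ℕ → ℕ) (t : ℕ) : ℕ → ℕ := fun x => shA n f h (t + 1) (x + 2 * t) - 2 * t

lemma shN_nci (hn : n % 2 = 1) (h3 : 3 ≤ n) {f h : ℕ → ℕ} (hf : NCI 1 n f) (hh : NCI 1 n h) (t : ℕ)
    (ht : 2 * t + 5 ≤ n) : NCI 3 (n + 2) (shN n f h t) := by
  have h1 := shA_nci hn h3 hf hh (t + 1) (by omega)
  have e1 : 1 + 2 * (t + 1) = 3 + 2 * t := by omega
  have e2 : n + 2 * (t + 1) = n + 2 + 2 * t := by omega
  rw [e1, e2] at h1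
  exact h1.down

lemma shift2_shN (n : ℕ) (f h : ℕ → ℕ) (t : ℕ) : shift2 (shN n f h t) = shT n f h (t + 1) := by
  funext x
  unfold shift2 shN shT
  have e : x + 2 + 2 * t = x + 2 * (t + 1) := by omega
  rw [e]
  omega

lemma front_shT (hn : n % 2 = 1) (h3 : 3 ≤ n) {f h : ℕ → ℕ} (hf : NCI 1 n f) (hh : NCI 1 n h)
    (t : ℕ) (ht : 2 * t + 5 ≤ n) {x : ℕ} (hx : 3 ≤ x) (hx' : x < n) :
    front 1 (shT n f h t) x = front (2 * t + 1) (shA n f h t) (x + 2 * t) - 2 * t := by
  have h1 := shA_nci hn h3 hf hh t (by omega)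
  have m1 := h1.mem (2 * t + 1) (by omega) (by omega)
  have m2 := h1.mem (2 * t + 1 + 1) (by omega) (by omega)
  unfold front shT
  have e1 : 1 + 2 * t = 2 * t + 1 := by omega
  have e2 : 1 + 1 + 2 * t = 2 * t + 1 + 1 := by omega
  rw [e1, e2]
  by_cases c1 : x + 2 * t = shA n f h t (2 * t + 1)
  · rw [if_pos c1, if_pos (by omega)]
  · rw [if_neg c1, if_neg (by omega)]
    by_cases c2 : x + 2 * t = shA n f h t (2 * t + 1 + 1)
    · rw [if_pos c2, if_pos (by omega)]
    · rw [if_neg c2, if_neg (by omega)]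

lemma back_shN (hn : n % 2 = 1) (h3 : 3 ≤ n) {f h : ℕ → ℕ} (hf : NCI 1 n f) (hh : NCI 1 n h)
    (t : ℕ) (ht : 2 * t + 5 ≤ n) {x : ℕ} (hx : 3 ≤ x) (hx' : x < n) :
    back (n + 2) (shN n f h t) x =
      back (n + 2 * t + 2) (shA n f h (t + 1)) (x + 2 * t) - 2 * t := by
  have h1 := shA_nci hn h3 hf hh (t + 1) (by omega)
  have m1 := h1.mem (n + 2 * t + 2 - 1) (by omega) (by omega)
  have m2 := h1.mem (n + 2 * t + 2 - 2) (by omega) (by omega)
  unfold back shN
  have e1 : n + 2 - 1 + 2 * t = n + 2 * t + 2 - 1 := by omega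
  have e2 : n + 2 - 2 + 2 * t = n + 2 * t + 2 - 2 := by omega
  rw [e1, e2]
  by_cases c1 : x + 2 * t = shA n f h (t + 1) (n + 2 * t + 2 - 1)
  · rw [if_pos c1, if_pos (by omega)]
  · rw [if_neg c1, if_neg (by omega)]
    by_cases c2 : x + 2 * t = shA n f h (t + 1) (n + 2 * t + 2 - 2)
    · rw [if_pos c2, if_pos (by omega)]
    · rw [if_neg c2, if_neg (by omega)]

lemma sh_rel (hn : n % 2 = 1) (h3 : 3 ≤ n) {f h : ℕ → ℕ} (hf : NCI 1 n f) (hh : NCI 1 n h)
    (t : ℕ) (ht : 2 * t + 5 ≤ n) {x : ℕ} (hx : 3 ≤ x) (hx' : x < n) :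
    front 1 (shT n f h t) x = back (n + 2) (shN n f h t) x := by
  rw [front_shT hn h3 hf hh t ht hx hx', back_shN hn h3 hf hh t ht hx hx',
    shA_rel hn h3 hf hh t ht (by omega) (by omega)]

/-- event at the front -/
lemma ev_front (hn : n % 2 = 1) (h3 : 3 ≤ n) {f h : ℕ → ℕ} (hf : NCI 1 n f) (hh : NCI 1 n h)
    (t : ℕ) (ht : 2 * t + 5 ≤ n) :
    (shT n f h t 1 = 2 ↔ frt f t (2 * t + 1) = 2 * t + 2) ∧
    (frt f t (2 * t + 1) ≠ 2 * t + 2 → shT n f h t 2 < n - 1 - 2 * t) := by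
  have h1 := shA_nci hn h3 hf hh t (by omega)
  have m1 := h1.mem (2 * t + 1) (by omega) (by omega)
  have m2 := h1.mem (2 * t + 2) (by omega) (by omega)
  obtain ⟨k1, k2⟩ := shA_first hn h3 hf hh t ht
  unfold shT
  rw [Nat.add_comm 1, Nat.add_comm 2]
  refine ⟨?_, ?_⟩
  · rw [← k1]; omega
  · intro h4
    have := k2 h4
    omega

/-- event at the back -/
lemma ev_back (hn : n % 2 = 1) (h3 : 3 ≤ n) {f h : ℕ → ℕ} (hf : NCI 1 n f) (hh : NCI 1 n h)
    (t : ℕ) (ht : 2 * t + 5 ≤ n) :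
    (shN n f h t (n + 1) = n ↔ bkA n h (t + 1) (n + 2 * t + 1) = n + 2 * t) ∧
    (bkA n h (t + 1) (n + 2 * t + 1) ≠ n + 2 * t → n - 1 - 2 * t ≤ shN n f h t n) := by
  have h1 := shA_nci hn h3 hf hh (t + 1) (by omega)
  have m1 := h1.mem (n + 2 * t + 1) (by omega) (by omega)
  have m2 := h1.mem (n + 2 * t) (by omega) (by omega)
  obtain ⟨k1, k2⟩ := shA_last hn h3 hf hh t ht
  unfold shN
  have e : n + 1 + 2 * t = n + 2 * t + 1 := by omega
  rw [e]
  refine ⟨?_, ?_⟩
  · rw [← k1]; omega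
  · intro h4
    have := k2 h4
    omega

/-- the sweep lemma from the step lemma -/
theorem sweep_of (hn : n % 2 = 1) (h3 : 3 ≤ n)
    (hstep : ∀ f g f' g' : ℕ → ℕ, ∀ (hf : NCI 1 n f) (hg : NCI 1 n g) (hf' : NCI 3 (n + 2) f')
      (hg' : NCI 3 (n + 2) g'),
      (∀ x, 3 ≤ x → x < n → front 1 f x = back (n + 2) f' x) →
      (∀ x, 3 ≤ x → x < n → front 1 g x = back (n + 2) g' x) →
      (f 1 ≠ 2 → f' (n + 1) ≠ n → f 2 < f' n) → (g 1 ≠ 2 → g' (n + 1) ≠ n → g 2 < g' n) →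
      DistLe (ofNC n _ (gl_nc (by omega) hf hg))
        (rot^[2] (ofNC n _ (gl_nc (by omega) (shift2_nci hf') (shift2_nci hg'))))
        (2 + 2 * ((if f 1 = 2 then 0 else 1) + (if g 1 = 2 then 0 else 1) +
          (if f' (n + 1) = n then 0 else 1) + (if g' (n + 1) = n then 0 else 1))))
    (R R' : NCM n) (h : R.p 0 = n) (h' : R'.p 0 = n) :
    ∃ k : ℕ, DistLe R (rot^[n - 3] R') k ∧ 2 * (k : ℤ) ≤ 2 * (n - 3) + U R + U R' := by
  obtain ⟨hf, hg, hR⟩ := aligned_sheets (by omega) R h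
  obtain ⟨hf', hg', hR'⟩ := aligned_sheets (by omega) R' h'
  set f := R.p with hfdef
  set g := (fun x => R.p (x + n) - n) with hgdef
  set f' := R'.p with hf'def
  set g' := (fun x => R'.p (x + n) - n) with hg'def
  have h1 : 1 < n := by omega
  -- the states
  have main : ∀ t : ℕ, ∀ ht : 2 * t + 3 ≤ n,
      ∃ k : ℕ, DistLe R (rot^[2 * t] (ofNC n _ (gl_nc h1 (shT_nci hn h3 hf hf' t ht)
        (shT_nci hn h3 hg hg' t ht)))) k ∧
      k + 2 * (cost (2 * t + 1) n (frt f t) + cost (2 * t + 1) n (frt g t)) ≤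
        2 * t + 2 * (cost 1 n f + cost 1 n g) +
        2 * (cost (n - 2) (n + 2 * t) (bkA n f' t) + cost (n - 2) (n + 2 * t) (bkA n g' t)) := by
    intro t
    induction t with
    | zero =>
      intro ht
      refine ⟨0, DistLe.of_eq ?_ 0, ?_⟩
      · show R = ofNC n _ _
        apply NCM.ext_p
        intro x hx
        rw [ofNC_p _ hx]
        show f x = _
        rw [hR x hx]
        unfold gl
        split_ifs with c1 c2 c3
        · rfl
        · rfl
        · show f x = shA n f f' 0 x - 0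
          rw [shA_zero hn h3 hf' c3]
          rfl
        · show g (x - n) + n = shA n g g' 0 (x - n) - 0 + n
          rw [shA_zero hn h3 hg' (by omega)]
          rfl
      · show 0 + 2 * (cost 1 n f + cost 1 n g) ≤ _
        omega
    | succ t ih =>
      intro ht
      obtain ⟨k, hk1, hk2⟩ := ih (by omega)
      have ht' : 2 * t + 5 ≤ n := by omega
      have A1 := ev_front hn h3 hf hf' t ht'
      have A2 := ev_front hn h3 hg hg' t ht'
      have B1 := ev_back hn h3 hf hf' t ht'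
      have B2 := ev_back hn h3 hg hg' t ht'
      have st := hstep (shT n f f' t) (shT n g g' t) (shN n f f' t) (shN n g g' t)
        (shT_nci hn h3 hf hf' t (by omega)) (shT_nci hn h3 hg hg' t (by omega))
        (shN_nci hn h3 hf hf' t ht') (shN_nci hn h3 hg hg' t ht')
        (fun x hx hx' => sh_rel hn h3 hf hf' t ht' hx hx')
        (fun x hx hx' => sh_rel hn h3 hg hg' t ht' hx hx')
        (by
          intro c1 c2
          have := A1.2 (fun e => c1 (A1.1.2 e))
          have := B1.2 (fun e => c2 (B1.1.2 e))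
          omega)
        (by
          intro c1 c2
          have := A2.2 (fun e => c1 (A2.1.2 e))
          have := B2.2 (fun e => c2 (B2.1.2 e))
          omega)
      have e : ofNC n _ (gl_nc h1 (shift2_nci (shN_nci hn h3 hf hf' t ht'))
          (shift2_nci (shN_nci hn h3 hg hg' t ht'))) =
          ofNC n _ (gl_nc h1 (shT_nci hn h3 hf hf' (t + 1) ht)
            (shT_nci hn h3 hg hg' (t + 1) ht)) := by
        apply NCM.ext_p
        intro x hx
        rw [ofNC_p _ hx, ofNC_p _ hx, shift2_shN, shift2_shN]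
      rw [e] at st
      have st2 := DistLe.rotk hn st (2 * t)
      rw [← Function.iterate_add_apply, ← Nat.mul_succ] at st2
      refine ⟨_, hk1.trans st2, ?_⟩
      have C1 := cost_frt hn hf t ht'
      have C2 := cost_frt hn hg t ht'
      have D1 := cost_bkA hn h3 hf' t ht'
      have D2 := cost_bkA hn h3 hg' t ht'
      have q1 : (if shT n f f' t 1 = 2 then 0 else 1) =
        (if frt f t (2 * t + 1) = 2 * t + 2 then 0 else 1) := by
        simp only [A1.1]
      have q2 : (if shT n g g' t 1 = 2 then 0 else 1) =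
        (if frt g t (2 * t + 1) = 2 * t + 2 then 0 else 1) := by
        simp only [A2.1]
      have q3 : (if shN n f f' t (n + 1) = n then 0 else 1) =
        (if bkA n f' (t + 1) (n + 2 * t + 1) = n + 2 * t then 0 else 1) := by
        simp only [B1.1]
      have q4 : (if shN n g g' t (n + 1) = n then 0 else 1) =
        (if bkA n g' (t + 1) (n + 2 * t + 1) = n + 2 * t then 0 else 1) := by
        simp only [B2.1]
      rw [q1, q2, q3, q4]
      omega
  obtain ⟨k, hk1, hk2⟩ := main ((n - 3) / 2) (by omega)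
  have e0 : 2 * ((n - 3) / 2) = n - 3 := by omega
  have e1 : ofNC n _ (gl_nc h1 (shT_nci hn h3 hf hf' ((n - 3) / 2) (by omega))
        (shT_nci hn h3 hg hg' ((n - 3) / 2) (by omega))) = R' := by
    apply NCM.ext_p
    intro x hx
    rw [ofNC_p _ hx]
    show _ = f' x
    rw [hR' x hx]
    unfold gl
    split_ifs with c1 c2 c3
    · rfl
    · rfl
    · show shA n f f' ((n - 3) / 2) (x + 2 * ((n - 3) / 2)) - 2 * ((n - 3) / 2) = f' x
      rw [shA_top hn h3 hf (by omega), e0, Nat.add_sub_cancel, Nat.add_sub_cancel]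
    · show shA n g g' ((n - 3) / 2) (x - n + 2 * ((n - 3) / 2)) - 2 * ((n - 3) / 2) + n =
        g' (x - n) + n
      rw [shA_top hn h3 hg (by omega), e0, Nat.add_sub_cancel, Nat.add_sub_cancel]
  rw [e1, e0] at hk1
  refine ⟨k, hk1, ?_⟩
  rw [cost_bkA_top hn h3, cost_bkA_top hn h3] at hk2
  have u1 : U R = 4 * ((cost 1 n f : ℤ) + cost 1 n g) := by
    rw [← U_gl hn h1 hf hg]
    congr 1
    apply NCM.ext_p
    intro x hx
    rw [ofNC_p _ hx]
    exact hR x hx
  have u2 : U R' = 4 * ((cost 1 n f' : ℤ) + cost 1 n g') := by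
    rw [← U_gl hn h1 hf' hg']
    congr 1
    apply NCM.ext_p
    intro x hx
    rw [ofNC_p _ hx]
    exact hR' x hx
  rw [u1, u2]
  push_cast at hk2 ⊢
  omega

end Pool.Agent.Helper95.CF
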