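import Mathlib

set_option autoImplicit false

open Finset

namespace Pool.Agent.Helper12

section CharSum

variable {n : ℕ} [NeZero n]

/-- Norm of the standard additive character. -/
lemma norm_std (x : ZMod n) : ‖ZMod.stdAddChar x‖ = 1 := by
  exact AddChar.norm_apply _ _

lemma conj_std (x : ZMod n) :
    (starRingEnd ℂ) (ZMod.stdAddChar x) = ZMod.stdAddChar (-x) := by
  rw [AddChar.map_neg_eq_conj]

/-- Large sieve type identity: mean square of an exponential sum with bounded coefficients. -/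
lemma mean_square_le {ι : Type*} (I : Finset ι) (c : ι → ℂ) (hc : ∀ i ∈ I, ‖c i‖ ≤ 1)
    (s : ι → ZMod n) :
    ∑ μ : ZMod n, ‖∑ i ∈ I, c i * ZMod.stdAddChar (μ * s i)‖ ^ 2 ≤
      n * (((I ×ˢ I).filter (fun q => s q.1 = s q.2)).card : ℝ) := by
  classical
  have key : ∀ μ : ZMod n,
      ((‖∑ i ∈ I, c i * ZMod.stdAddChar (μ * s i)‖ ^ 2 : ℝ) : ℂ) =
      ∑ q ∈ I ×ˢ I, (c q.1 * (starRingEnd ℂ) (c q.2)) *
        ZMod.stdAddChar (μ * (s q.1 - s q.2)) := by
    intro μ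
    have h1 : ((‖∑ i ∈ I, c i * ZMod.stdAddChar (μ * s i)‖ ^ 2 : ℝ) : ℂ) =
      (∑ i ∈ I, c i * ZMod.stdAddChar (μ * s i)) *
        (starRingEnd ℂ) (∑ i ∈ I, c i * ZMod.stdAddChar (μ * s i)) := by
      rw [Complex.mul_conj, Complex.normSq_eq_norm_sq]
    rw [h1, map_sum, Finset.sum_mul_sum, ← Finset.sum_product']
    refine Finset.sum_congr rfl fun q _ => ?_
    rw [map_mul (starRingEnd ℂ), conj_std, mul_sub, sub_eq_add_neg, AddChar.map_add_eq_mul]
    ring
  have h2 : ((∑ μ : ZMod n, ‖∑ i ∈ I, c i * ZMod.stdAddChar (μ * s i)‖ ^ 2 : ℝ) : ℂ) =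
      ∑ q ∈ I ×ˢ I, (c q.1 * (starRingEnd ℂ) (c q.2)) *
        (if s q.1 = s q.2 then (n : ℂ) else 0) := by
    push_cast
    have : ∀ μ : ZMod n, ((‖∑ i ∈ I, c i * ZMod.stdAddChar (μ * s i)‖ : ℂ) ^ 2) =
      ∑ q ∈ I ×ˢ I, (c q.1 * (starRingEnd ℂ) (c q.2)) *
        ZMod.stdAddChar (μ * (s q.1 - s q.2)) := by
      intro μ
      rw [← key μ]; push_cast; rfl
    simp_rw [this]
    rw [Finset.sum_comm]
    refine Finset.sum_congr rfl fun q _ => ?_
    rw [← Finset.mul_sum, AddChar.sum_mulShift _ (ZMod.isPrimitive_stdAddChar n)]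
    simp [sub_eq_zero, ZMod.card]
  have h3 : (∑ μ : ZMod n, ‖∑ i ∈ I, c i * ZMod.stdAddChar (μ * s i)‖ ^ 2 : ℝ) =
      ‖∑ q ∈ I ×ˢ I, (c q.1 * (starRingEnd ℂ) (c q.2)) *
        (if s q.1 = s q.2 then (n : ℂ) else 0)‖ := by
    rw [← h2, Complex.norm_real, Real.norm_of_nonneg]
    exact Finset.sum_nonneg fun _ _ => by positivity
  rw [h3]
  refine (norm_sum_le _ _).trans ?_
  rw [Finset.card_filter]
  push_cast
  rw [Finset.mul_sum]
  refine Finset.sum_le_sum fun q hq => ?_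
  rw [Finset.mem_product] at hq
  rw [norm_mul, norm_mul, RCLike.norm_conj]
  split_ifs with h
  · have := hc _ hq.1
    have := hc _ hq.2
    have h4 : ‖c q.1‖ * ‖c q.2‖ ≤ 1 := mul_le_one₀ (hc _ hq.1) (norm_nonneg _) (hc _ hq.2)
    simp only [Complex.norm_natCast, mul_one]
    have : (0:ℝ) ≤ n := by positivity
    nlinarith
  · simp

/-- Cauchy-Schwarz with multiplicities. -/
lemma sum_comp_sq_le {ι : Type*} (J : Finset ι) (w : ι → ZMod n) (G : ZMod n → ℝ) :
    (∑ j ∈ J, G (w j)) ^ 2 ≤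
      (((J ×ˢ J).filter (fun q => w q.1 = w q.2)).card : ℝ) * ∑ μ : ZMod n, G μ ^ 2 := by
  classical
  have h1 : ∑ j ∈ J, G (w j) = ∑ μ : ZMod n, ((J.filter (fun j => w j = μ)).card : ℝ) * G μ := by
    rw [← Finset.sum_fiberwise J w]
    refine Finset.sum_congr rfl fun μ _ => ?_
    rw [Finset.sum_congr rfl (g := fun _ => G μ)]
    · simp
    · intro j hj
      rw [Finset.mem_filter] at hj
      rw [hj.2]
  have h2 : (((J ×ˢ J).filter (fun q => w q.1 = w q.2)).card : ℝ) =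
      ∑ μ : ZMod n, ((J.filter (fun j => w j = μ)).card : ℝ) ^ 2 := by
    have : ((J ×ˢ J).filter (fun q => w q.1 = w q.2)).card =
      ∑ μ : ZMod n, ((J.filter (fun j => w j = μ)).card) ^ 2 := by
      rw [Finset.card_eq_sum_card_fiberwise (f := fun q => w q.1) (t := Finset.univ)
        (fun _ _ => Finset.mem_coe.2 (Finset.mem_univ _))]
      refine Finset.sum_congr rfl fun μ _ => ?_
      rw [sq, ← Finset.card_product]
      congr 1
      ext q
      simp only [Finset.mem_filter, Finset.mem_product]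
      constructor
      · rintro ⟨⟨⟨h1, h2⟩, h3⟩, h4⟩
        exact ⟨⟨h1, h4⟩, h2, h3 ▸ h4⟩
      · rintro ⟨⟨h1, h2⟩, h3, h4⟩
        exact ⟨⟨⟨h1, h3⟩, h2.trans h4.symm⟩, h2⟩
    rw [this]; push_cast; rfl
  rw [h1, h2]
  exact Finset.sum_mul_sq_le_sq_mul_sq _ _ _

/-- Power mean inequality. -/
lemma sum_pow_le_card_mul {ι : Type*} (s : Finset ι) (f : ι → ℝ) (hf : ∀ i ∈ s, 0 ≤ f i) (m : ℕ) :
    (∑ i ∈ s, f i) ^ (m + 1) ≤ (s.card : ℝ) ^ m * ∑ i ∈ s, f i ^ (m + 1) := by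
  rcases s.eq_empty_or_nonempty with rfl | hs
  · simp
  · have h := pow_sum_div_card_le_sum_pow hf m
    have hpos : (0 : ℝ) < (s.card : ℝ) ^ m := by
      have : 0 < s.card := hs.card_pos
      positivity
    rw [div_le_iff₀ hpos] at h
    linarith

lemma std_sum {ι : Type*} (s : Finset ι) (g : ι → ZMod n) :
    (ZMod.stdAddChar (∑ i ∈ s, g i) : ℂ) = ∏ i ∈ s, ZMod.stdAddChar (g i) := by
  classical
  induction s using Finset.induction_on with
  | empty => simp
  | insert a s ha ih => rw [Finset.sum_insert ha, Finset.prod_insert ha, AddChar.map_add_eq_mul, ih]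

/-- Combination of the inequalities in the double Hoelder argument. -/
lemma chain_ineq (m : ℕ) (s t a b X Y E F : ℝ) (hs : 0 ≤ s) (ha : 0 ≤ a) (hb : 0 ≤ b)
    (ht : 0 ≤ t)
    (h1 : s ^ (m + 1) ≤ a ^ m * t) (h2 : t ≤ X) (h3 : X ^ (m + 1) ≤ b ^ ((m + 1) * m) * Y)
    (h4 : Y ^ 2 ≤ E * F) :
    s ^ (2 * (m + 1) * (m + 1)) ≤ a ^ (2 * (m + 1) * m) * b ^ (2 * (m + 1) * m) * (E * F) := by
  have hX : 0 ≤ X := ht.trans h2
  calc s ^ (2 * (m + 1) * (m + 1)) = (s ^ (m + 1)) ^ (2 * (m + 1)) := by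
        rw [← pow_mul]; congr 1; ring
    _ ≤ (a ^ m * X) ^ (2 * (m + 1)) := by
        refine pow_le_pow_left₀ (by positivity) (h1.trans ?_) _
        exact mul_le_mul_of_nonneg_left h2 (by positivity)
    _ = a ^ (2 * (m + 1) * m) * (X ^ (m + 1)) ^ 2 := by
        rw [mul_pow, ← pow_mul, ← pow_mul]; ring_nf
    _ ≤ a ^ (2 * (m + 1) * m) * (b ^ ((m + 1) * m) * Y) ^ 2 := by
        refine mul_le_mul_of_nonneg_left ?_ (by positivity)
        exact pow_le_pow_left₀ (by positivity) h3 _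
    _ = a ^ (2 * (m + 1) * m) * b ^ (2 * (m + 1) * m) * Y ^ 2 := by
        rw [mul_pow, ← pow_mul]; ring_nf
    _ ≤ a ^ (2 * (m + 1) * m) * b ^ (2 * (m + 1) * m) * (E * F) :=
        mul_le_mul_of_nonneg_left h4 (by positivity)

/-- A power of an exponential sum as a sum over tuples. -/
lemma pow_sum_std {ι : Type*} [DecidableEq ι] (k : ℕ) (A : Finset ι) (θ : ι → ℂ)
    (μ : ZMod n) (u : ι → ZMod n) :
    (∑ a ∈ A, θ a * ZMod.stdAddChar (μ * u a)) ^ k =
      ∑ f ∈ Fintype.piFinset (fun _ : Fin k => A),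
        (∏ i, θ (f i)) * ZMod.stdAddChar (μ * ∑ i, u (f i)) := by
  have h := Finset.prod_univ_sum (fun _ : Fin k => A)
    (fun (_ : Fin k) a => θ a * ZMod.stdAddChar (μ * u a))
  rw [Finset.prod_const, Finset.card_univ, Fintype.card_fin] at h
  rw [h]
  refine Finset.sum_congr rfl fun f _ => ?_
  rw [Finset.prod_mul_distrib, Finset.mul_sum, std_sum]

/-- Number of solutions of `∑ u (f i) = ∑ u (g i)` with tuples from `A`. -/
noncomputable def energy {ι : Type*} [DecidableEq ι] (k : ℕ) (A : Finset ι) (u : ι → ZMod n) : ℕ :=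
  (((Fintype.piFinset (fun _ : Fin k => A)) ×ˢ (Fintype.piFinset (fun _ : Fin k => A))).filter
    (fun q => ∑ i, u (q.1 i) = ∑ i, u (q.2 i))).card

/-- Double Hoelder bound for bilinear exponential sums. -/
lemma bilinear_bound {ι : Type*} [DecidableEq ι] (m : ℕ) (A B : Finset ι) (u v : ι → ZMod n)
    (h : ZMod n) :
    ‖∑ a ∈ A, ∑ b ∈ B, ZMod.stdAddChar (h * (u a * v b))‖ ^ (2 * (m + 1) * (m + 1)) ≤
      (A.card : ℝ) ^ (2 * (m + 1) * m) * (B.card : ℝ) ^ (2 * (m + 1) * m) *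
        ((energy (m + 1) B (fun b => h * v b) : ℝ) * (n * energy (m + 1) A u)) := by
  classical
  set T : ι → ℂ := fun a => ∑ b ∈ B, ZMod.stdAddChar (h * (u a * v b)) with hT
  set w : (Fin (m + 1) → ι) → ZMod n := fun f => ∑ i, h * v (f i) with hw
  have hTpow : ∀ a, T a ^ (m + 1) =
      ∑ f ∈ Fintype.piFinset (fun _ : Fin (m + 1) => B), ZMod.stdAddChar (w f * u a) := by
    intro a
    have h1 := pow_sum_std (n := n) (m + 1) B (fun _ => 1) (u a) (fun b => h * v b)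
    simp only [one_mul, Finset.prod_const_one] at h1
    have h2 : T a = ∑ b ∈ B, ZMod.stdAddChar (u a * (h * v b)) := by
      simp only [hT]
      refine Finset.sum_congr rfl fun b _ => ?_
      congr 1; ring
    rw [h2, h1]
    refine Finset.sum_congr rfl fun f _ => ?_
    rw [mul_comm]
  -- unimodular coefficients
  set θ : ι → ℂ := fun a => if T a = 0 then 0 else (starRingEnd ℂ) (T a ^ (m + 1)) /
    (‖T a‖ ^ (m + 1) : ℝ) with hθ
  have hθnorm : ∀ a, ‖θ a‖ ≤ 1 := by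
    intro a
    simp only [hθ]
    split_ifs with h0
    · simp
    · rw [norm_div, RCLike.norm_conj, norm_pow, Complex.norm_real, Real.norm_of_nonneg (by positivity)]
      rw [div_self]
      have : ‖T a‖ ≠ 0 := norm_ne_zero_iff.2 h0
      positivity
  have hθmul : ∀ a, ((‖T a‖ ^ (m + 1) : ℝ) : ℂ) = θ a * T a ^ (m + 1) := by
    intro a
    simp only [hθ]
    split_ifs with h0
    · simp [h0]
    · have h1 : ((‖T a‖ ^ (m + 1) : ℝ) : ℂ) ≠ 0 := by
        have : ‖T a‖ ≠ 0 := norm_ne_zero_iff.2 h0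
        exact_mod_cast pow_ne_zero _ this
      rw [div_mul_eq_mul_div, eq_div_iff h1, mul_comm ((starRingEnd ℂ) _), Complex.mul_conj,
        Complex.normSq_eq_norm_sq, norm_pow]
      push_cast
      ring
  set G : ZMod n → ℂ := fun μ => ∑ a ∈ A, θ a * ZMod.stdAddChar (μ * u a) with hG
  -- step 1
  have step1 : ‖∑ a ∈ A, T a‖ ^ (m + 1) ≤ (A.card : ℝ) ^ m * ∑ a ∈ A, ‖T a‖ ^ (m + 1) := by
    refine (pow_le_pow_left₀ (norm_nonneg _) (norm_sum_le _ _) _).trans ?_
    exact sum_pow_le_card_mul A (fun a => ‖T a‖) (fun _ _ => norm_nonneg _) m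
  -- step 2
  have step2 : ∑ a ∈ A, ‖T a‖ ^ (m + 1) ≤
      ∑ f ∈ Fintype.piFinset (fun _ : Fin (m + 1) => B), ‖G (w f)‖ := by
    have h1 : ((∑ a ∈ A, ‖T a‖ ^ (m + 1) : ℝ) : ℂ) =
        ∑ f ∈ Fintype.piFinset (fun _ : Fin (m + 1) => B), G (w f) := by
      rw [Complex.ofReal_sum]
      simp_rw [hθmul, hTpow, hG, Finset.mul_sum]
      rw [Finset.sum_comm]
    have h2 : ∑ a ∈ A, ‖T a‖ ^ (m + 1) = ‖∑ f ∈ Fintype.piFinset (fun _ : Fin (m + 1) => B),
        G (w f)‖ := by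
      rw [← h1, Complex.norm_real, Real.norm_of_nonneg]
      exact Finset.sum_nonneg fun _ _ => by positivity
    rw [h2]
    exact norm_sum_le _ _
  -- step 3
  have step3 : (∑ f ∈ Fintype.piFinset (fun _ : Fin (m + 1) => B), ‖G (w f)‖) ^ (m + 1) ≤
      (B.card : ℝ) ^ ((m + 1) * m) *
        ∑ f ∈ Fintype.piFinset (fun _ : Fin (m + 1) => B), ‖G (w f)‖ ^ (m + 1) := by
    have := sum_pow_le_card_mul (Fintype.piFinset (fun _ : Fin (m + 1) => B))
      (fun f => ‖G (w f)‖) (fun _ _ => norm_nonneg _) m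
    refine this.trans (le_of_eq ?_)
    congr 1
    rw [Fintype.card_piFinset, Finset.prod_const, Finset.card_univ, Fintype.card_fin]
    push_cast
    rw [← pow_mul]
  -- step 4
  have step4 : (∑ f ∈ Fintype.piFinset (fun _ : Fin (m + 1) => B), ‖G (w f)‖ ^ (m + 1)) ^ 2 ≤
      (energy (m + 1) B (fun b => h * v b) : ℝ) * ∑ μ : ZMod n, (‖G μ‖ ^ (m + 1)) ^ 2 := by
    exact sum_comp_sq_le (Fintype.piFinset (fun _ : Fin (m + 1) => B)) w
      (fun μ => ‖G μ‖ ^ (m + 1))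
  -- step 5
  have step5 : ∑ μ : ZMod n, (‖G μ‖ ^ (m + 1)) ^ 2 ≤ n * energy (m + 1) A u := by
    have h1 : ∀ μ : ZMod n, (‖G μ‖ ^ (m + 1)) ^ 2 =
        ‖∑ f ∈ Fintype.piFinset (fun _ : Fin (m + 1) => A),
        (∏ i, θ (f i)) * ZMod.stdAddChar (μ * ∑ i, u (f i))‖ ^ 2 := by
      intro μ
      rw [← norm_pow, hG, pow_sum_std]
    rw [Finset.sum_congr rfl (fun μ _ => h1 μ)]
    have h2 : ∀ f ∈ Fintype.piFinset (fun _ : Fin (m + 1) => A), ‖∏ i, θ (f i)‖ ≤ 1 := by
      intro f _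
      rw [norm_prod]
      exact Finset.prod_le_one (fun _ _ => norm_nonneg _) (fun _ _ => hθnorm _)
    have h3 := mean_square_le (n := n) (Fintype.piFinset (fun _ : Fin (m + 1) => A))
      (fun f => ∏ i, θ (f i)) h2 (fun f => ∑ i, u (f i))
    rw [energy]
    exact h3
  have h4 := step4.trans (mul_le_mul_of_nonneg_left step5 (Nat.cast_nonneg _))
  exact chain_ineq m _ _ _ _ _ _ _ _ (norm_nonneg _) (Nat.cast_nonneg _) (Nat.cast_nonneg _)
    (Finset.sum_nonneg fun _ _ => by positivity) step1 step2 step3 h4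

/-- Exponential sum over the interval `[1,H]` at a frequency of small order. -/
lemma interval_sum_small (H : ℕ) (h : ZMod n) (hh : h ≠ 0) :
    ‖∑ i ∈ Finset.range H, (ZMod.stdAddChar (h * ((i + 1 : ℕ) : ZMod n)) : ℂ)‖ ≤ addOrderOf h := by
  set ζ : ℂ := ZMod.stdAddChar h with hζ
  have hζ1 : ζ ≠ 1 := by
    rw [hζ, ← AddChar.map_zero_eq_one (ZMod.stdAddChar (N := n))]
    exact fun h0 => hh (ZMod.injective_stdAddChar h0)
  have hpow : ∀ j : ℕ, (ZMod.stdAddChar (h * (j : ZMod n)) : ℂ) = ζ ^ j := by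
    intro j
    rw [hζ, ← AddChar.map_nsmul_eq_pow, nsmul_eq_mul, mul_comm]
  have hord : ζ ^ (addOrderOf h) = 1 := by
    rw [hζ, ← AddChar.map_nsmul_eq_pow, addOrderOf_nsmul_eq_zero, AddChar.map_zero_eq_one]
  have hmod : ζ ^ H = ζ ^ (H % addOrderOf h) := by
    conv_lhs => rw [← Nat.div_add_mod H (addOrderOf h), pow_add, pow_mul, hord, one_pow, one_mul]
  have hsum : ∑ i ∈ Finset.range H, (ZMod.stdAddChar (h * ((i + 1 : ℕ) : ZMod n)) : ℂ) =
      ∑ i ∈ Finset.range (H % addOrderOf h), ζ * ζ ^ i := by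
    rw [← Finset.mul_sum, geom_sum_eq hζ1, ← hmod, ← geom_sum_eq hζ1, Finset.mul_sum]
    refine Finset.sum_congr rfl fun i _ => ?_
    rw [hpow, pow_succ']
  rw [hsum]
  refine (norm_sum_le _ _).trans ?_
  have : ∀ i ∈ Finset.range (H % addOrderOf h), ‖ζ * ζ ^ i‖ ≤ 1 := by
    intro i _
    rw [norm_mul, norm_pow, hζ, norm_std]; simp
  refine (Finset.sum_le_sum this).trans ?_
  simp only [Finset.sum_const, Finset.card_range, nsmul_eq_mul, mul_one]
  have hpos : 0 < addOrderOf h := addOrderOf_pos h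
  exact_mod_cast (Nat.mod_lt _ hpos).le

/-- Parseval for the interval. -/
lemma interval_sum_sq (H : ℕ) (hH : H ≤ n) :
    ∑ h : ZMod n, ‖∑ i ∈ Finset.range H, (ZMod.stdAddChar (h * ((i + 1 : ℕ) : ZMod n)) : ℂ)‖ ^ 2 ≤
      n * H := by
  have h1 := mean_square_le (n := n) (Finset.range H) (fun _ => 1) (by simp)
    (fun i => ((i + 1 : ℕ) : ZMod n))
  simp only [one_mul] at h1
  refine h1.trans ?_
  refine mul_le_mul_of_nonneg_left ?_ (Nat.cast_nonneg _)
  have h2 : ((Finset.range H ×ˢ Finset.range H).filter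
      (fun q => ((q.1 + 1 : ℕ) : ZMod n) = ((q.2 + 1 : ℕ) : ZMod n))).card ≤ H := by
    conv_rhs => rw [← Finset.card_range H]
    refine Finset.card_le_card_of_injOn (fun q => q.1) ?_ ?_
    · intro q hq
      simp only [Finset.coe_filter, Finset.mem_product, Set.mem_ofPred_eq] at hq
      exact Finset.mem_coe.2 hq.1.1
    · intro q hq q' hq' he
      simp only [Finset.coe_filter, Finset.mem_product, Finset.mem_range, Set.mem_ofPred_eq] at hq hq'
      have e1 : ∀ x y : ℕ, x < H → y < H → ((x + 1 : ℕ) : ZMod n) = ((y + 1 : ℕ) : ZMod n) →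
          x = y := by
        intro x y hx hy hxy
        have : ((x : ℕ) : ZMod n) = ((y : ℕ) : ZMod n) := by
          push_cast at hxy; exact add_right_cancel hxy
        rw [ZMod.natCast_eq_natCast_iff'] at this
        rwa [Nat.mod_eq_of_lt (by omega), Nat.mod_eq_of_lt (by omega)] at this
      have h3 := e1 _ _ hq.1.1 hq.1.2 hq.2
      have h4 := e1 _ _ hq'.1.1 hq'.1.2 hq'.2
      simp only at he
      ext
      · exact he
      · rw [← h3, he, h4]
  exact_mod_cast h2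

/-- Solutions exist when the exponential sums at frequencies of large order are small. -/
lemma exists_solution {ι : Type*} [DecidableEq ι] (t H D : ℕ) (A B : Finset ι)
    (u v : ι → ZMod n) (hA : A.Nonempty) (hB : B.Nonempty) (hH : H ≤ n)
    (hsmall : 2 * (n : ℝ) * (D : ℝ) ^ (t + 2) < (H : ℝ) ^ (t + 2))
    (σ : ℝ) (hσ0 : 0 ≤ σ) (hσ : 2 * n * σ ≤ H * (A.card * B.card))
    (hbig : ∀ h : ZMod n, D < addOrderOf h →
      ‖∑ a ∈ A, ∑ b ∈ B, (ZMod.stdAddChar (h * (u a * v b)) : ℂ)‖ ≤ σ) :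
    ∃ a ∈ A, ∃ b ∈ B, ∃ f : Fin (t + 2) → ℕ, (∀ i, f i < H) ∧
      u a * v b + ((∑ i, (f i + 1) : ℕ) : ZMod n) = 0 := by
  classical
  by_contra hcon
  push Not at hcon
  set I : ZMod n → ℂ := fun h => ∑ i ∈ Finset.range H,
    (ZMod.stdAddChar (h * ((i + 1 : ℕ) : ZMod n)) : ℂ) with hI
  set S : ZMod n → ℂ := fun h => ∑ a ∈ A, ∑ b ∈ B, (ZMod.stdAddChar (h * (u a * v b)) : ℂ)
    with hS
  -- total sum vanishes
  have hIpow : ∀ h, I h ^ (t + 2) = ∑ f ∈ Fintype.piFinset (fun _ : Fin (t + 2) => Finset.range H),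
      (ZMod.stdAddChar (h * ((∑ i, (f i + 1) : ℕ) : ZMod n)) : ℂ) := by
    intro h
    have h1 := pow_sum_std (n := n) (t + 2) (Finset.range H) (fun _ => 1) h
      (fun i => ((i + 1 : ℕ) : ZMod n))
    simp only [one_mul, Finset.prod_const_one] at h1
    rw [hI]
    simp only
    rw [h1]
    refine Finset.sum_congr rfl fun f _ => ?_
    push_cast
    rfl
  have hzero : ∑ h : ZMod n, S h * I h ^ (t + 2) = 0 := by
    have h1 : ∀ h : ZMod n, S h * I h ^ (t + 2) = ∑ a ∈ A, ∑ b ∈ B,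
        ∑ f ∈ Fintype.piFinset (fun _ : Fin (t + 2) => Finset.range H),
        (ZMod.stdAddChar (h * (u a * v b + ((∑ i, (f i + 1) : ℕ) : ZMod n))) : ℂ) := by
      intro h
      rw [hIpow, hS]
      simp only
      rw [Finset.sum_mul]
      refine Finset.sum_congr rfl fun a _ => ?_
      rw [Finset.sum_mul]
      refine Finset.sum_congr rfl fun b _ => ?_
      rw [Finset.mul_sum]
      refine Finset.sum_congr rfl fun f _ => ?_
      rw [mul_add, AddChar.map_add_eq_mul]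
    rw [Finset.sum_congr rfl (fun h _ => h1 h), Finset.sum_comm]
    refine Finset.sum_eq_zero fun a ha => ?_
    rw [Finset.sum_comm]
    refine Finset.sum_eq_zero fun b hb => ?_
    rw [Finset.sum_comm]
    refine Finset.sum_eq_zero fun f hf => ?_
    rw [AddChar.sum_mulShift _ (ZMod.isPrimitive_stdAddChar n), if_neg]
    · simp
    · refine hcon a ha b hb f fun i => ?_
      rw [Fintype.mem_piFinset] at hf
      exact Finset.mem_range.1 (hf i)
  have hS0 : S 0 = (A.card * B.card : ℕ) := by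
    simp [hS]
  have hI0 : I 0 = H := by
    simp [hI]
  have hIH : ∀ h, ‖I h‖ ≤ H := by
    intro h
    refine (norm_sum_le _ _).trans ?_
    simp only [norm_std]
    simp
  have hSAB : ∀ h, ‖S h‖ ≤ A.card * B.card := by
    intro h
    refine (norm_sum_le _ _).trans ?_
    refine (Finset.sum_le_sum (fun a _ => norm_sum_le _ _)).trans ?_
    simp only [norm_std]
    simp
  have hmain : (A.card * B.card : ℝ) * (H : ℝ) ^ (t + 2) ≤
      ∑ h ∈ Finset.univ.erase (0 : ZMod n), ‖S h‖ * ‖I h‖ ^ (t + 2) := by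
    have h1 : S 0 * I 0 ^ (t + 2) = - ∑ h ∈ Finset.univ.erase (0 : ZMod n), S h * I h ^ (t + 2) := by
      rw [← Finset.add_sum_erase _ _ (Finset.mem_univ (0 : ZMod n))] at hzero
      exact eq_neg_of_add_eq_zero_left hzero
    have h2 : (A.card * B.card : ℝ) * (H : ℝ) ^ (t + 2) = ‖S 0 * I 0 ^ (t + 2)‖ := by
      rw [hS0, hI0, norm_mul, norm_pow, Complex.norm_natCast, Complex.norm_natCast]
      push_cast; rfl
    rw [h2, h1, norm_neg]
    refine (norm_sum_le _ _).trans (le_of_eq ?_)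
    refine Finset.sum_congr rfl fun h _ => ?_
    rw [norm_mul, norm_pow]
  have hterm : ∀ h ∈ Finset.univ.erase (0 : ZMod n), ‖S h‖ * ‖I h‖ ^ (t + 2) ≤
      (A.card * B.card : ℝ) * (D : ℝ) ^ (t + 2) + σ * (H : ℝ) ^ t * ‖I h‖ ^ 2 := by
    intro h hh
    have hh0 : h ≠ 0 := (Finset.mem_erase.1 hh).1
    by_cases hD : D < addOrderOf h
    · have h1 : ‖S h‖ * ‖I h‖ ^ (t + 2) ≤ σ * ((H : ℝ) ^ t * ‖I h‖ ^ 2) := by
        rw [pow_add]
        have := hbig h hD
        have h3 : ‖I h‖ ^ t ≤ (H : ℝ) ^ t := pow_le_pow_left₀ (norm_nonneg _) (hIH h) _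
        gcongr
      have h2 : (0 : ℝ) ≤ (A.card * B.card : ℝ) * (D : ℝ) ^ (t + 2) := by positivity
      calc _ ≤ _ := h1
        _ ≤ _ := by rw [← mul_assoc]; linarith
    · push Not at hD
      have h1 : ‖S h‖ * ‖I h‖ ^ (t + 2) ≤ (A.card * B.card : ℝ) * (D : ℝ) ^ (t + 2) := by
        have h3 : ‖I h‖ ≤ D := (interval_sum_small H h hh0).trans (by exact_mod_cast hD)
        have h4 := hSAB h
        have h5 : ‖I h‖ ^ (t + 2) ≤ (D : ℝ) ^ (t + 2) := pow_le_pow_left₀ (norm_nonneg _) h3 _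
        gcongr
      have h2 : (0 : ℝ) ≤ σ * (H : ℝ) ^ t * ‖I h‖ ^ 2 := by positivity
      linarith
  have hsum : ∑ h ∈ Finset.univ.erase (0 : ZMod n), ‖S h‖ * ‖I h‖ ^ (t + 2) ≤
      n * ((A.card * B.card : ℝ) * (D : ℝ) ^ (t + 2)) + σ * (H : ℝ) ^ t * (n * H) := by
    refine (Finset.sum_le_sum hterm).trans ?_
    rw [Finset.sum_add_distrib]
    refine add_le_add ?_ ?_
    · rw [Finset.sum_const, nsmul_eq_mul]
      have hc : (((Finset.univ.erase (0 : ZMod n)).card : ℕ) : ℝ) ≤ n := by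
        have : (Finset.univ.erase (0 : ZMod n)).card ≤ n := by
          refine (Finset.card_le_univ _).trans ?_
          rw [ZMod.card]
        exact_mod_cast this
      have hp : (0 : ℝ) ≤ (A.card * B.card : ℝ) * (D : ℝ) ^ (t + 2) := by positivity
      exact mul_le_mul_of_nonneg_right hc hp
    · have hp : (0 : ℝ) ≤ σ * (H : ℝ) ^ t := by positivity
      rw [← Finset.mul_sum]
      refine mul_le_mul_of_nonneg_left ?_ hp
      refine le_trans ?_ (interval_sum_sq H hH)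
      refine Finset.sum_le_sum_of_subset_of_nonneg (Finset.erase_subset _ _) ?_
      intro _ _ _; positivity
  have hAB : (0 : ℝ) < A.card * B.card := by
    have := hA.card_pos
    have := hB.card_pos
    positivity
  have e1 : σ * (H : ℝ) ^ t * (n * H) ≤ (1 / 2) * ((A.card * B.card : ℝ) * (H : ℝ) ^ (t + 2)) := by
    have h1 : σ * (H : ℝ) ^ t * (n * H) = (1 / 2) * ((2 * n * σ) * (H : ℝ) ^ (t + 1)) := by ring
    have h2 : (A.card * B.card : ℝ) * (H : ℝ) ^ (t + 2) =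
      (H * (A.card * B.card)) * (H : ℝ) ^ (t + 1) := by ring
    rw [h1, h2]
    have h3 : (2 * n * σ) * (H : ℝ) ^ (t + 1) ≤ (H * (A.card * B.card)) * (H : ℝ) ^ (t + 1) :=
      mul_le_mul_of_nonneg_right hσ (by positivity)
    linarith
  have e2 : n * ((A.card * B.card : ℝ) * (D : ℝ) ^ (t + 2)) <
      (1 / 2) * ((A.card * B.card : ℝ) * (H : ℝ) ^ (t + 2)) := by
    have h1 : n * ((A.card * B.card : ℝ) * (D : ℝ) ^ (t + 2)) =
      (1 / 2) * ((A.card * B.card : ℝ) * (2 * (n : ℝ) * (D : ℝ) ^ (t + 2))) := by ring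
    rw [h1]
    have h2 := mul_lt_mul_of_pos_left hsmall hAB
    linarith
  linarith

end CharSum

end Pool.Agent.Helper12
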