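import Pool.Agent.Helper12.FiniteSol

set_option autoImplicit false

open Finset

namespace Pool.Agent.Helper12

lemma card_primeFactors_le (n : ℕ) (hn : 1 ≤ n) :
    (n.primeFactors.card : ℝ) ≤ Real.log n / Real.log 2 := by
  have h1 : 2 ^ n.primeFactors.card ≤ ∏ p ∈ n.primeFactors, p :=
    Finset.pow_card_le_prod _ _ _ (fun p hp => (Nat.prime_of_mem_primeFactors hp).two_le)
  have h2 : ∏ p ∈ n.primeFactors, p ≤ n := Nat.le_of_dvd hn (Nat.prod_primeFactors_dvd n)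
  have h3 : ((2 : ℝ) ^ n.primeFactors.card) ≤ n := by exact_mod_cast h1.trans h2
  have h4 := Real.log_le_log (by positivity) h3
  rw [Real.log_pow] at h4
  rw [le_div_iff₀ (Real.log_pos (by norm_num))]
  exact h4

/-- The usable primes. -/
def usable (n P m : ℕ) : Finset ℕ := (Nat.primesLE P).filter (fun p => m + 1 < p ∧ ¬ p ∣ n)

lemma card_usable (n P m : ℕ) (hn : 1 ≤ n) :
    (Nat.primeCounting P : ℝ) - (m + 1) - Real.log n / Real.log 2 ≤ ((usable n P m).card : ℝ) := by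
  have h1 : Nat.primesLE P ⊆ usable n P m ∪ (Finset.Icc 1 (m + 1) ∪ n.primeFactors) := by
    intro p hp
    have hp' := Nat.mem_primesLE.1 hp
    simp only [usable, Finset.mem_union, Finset.mem_filter, Finset.mem_Icc, Nat.mem_primeFactors]
    by_cases h2 : m + 1 < p
    · by_cases h3 : p ∣ n
      · right; right; exact ⟨hp'.2, h3, by omega⟩
      · left; exact ⟨hp, h2, h3⟩
    · right; left; exact ⟨hp'.2.one_le, by omega⟩
  have h2 := (Finset.card_le_card h1).trans ((Finset.card_union_le _ _).trans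
    (Nat.add_le_add_left (Finset.card_union_le _ _) _))
  have h3 : (Nat.primesLE P).card = Nat.primeCounting P := by
    simp
  rw [h3] at h2
  have h4 : (Nat.primeCounting P : ℝ) ≤ (usable n P m).card + ((m + 1) + n.primeFactors.card) := by
    have : (Finset.Icc 1 (m + 1)).card = m + 1 := by simp
    rw [this] at h2
    exact_mod_cast h2
  have h5 := card_primeFactors_le n hn
  linarith

/-- Comparison of monomials. -/
lemma mono_lt {y C : ℝ} {a b d : ℕ} (hy1 : 1 ≤ y) (hC : C < y) (hb : b = a + (d + 1)) :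
    C * y ^ a < y ^ b := by
  have h0 : 0 < y ^ a := by positivity
  have h1 : y ≤ y ^ (d + 1) := le_self_pow₀ hy1 (by omega)
  calc C * y ^ a < y * y ^ a := mul_lt_mul_of_pos_right hC h0
    _ ≤ y ^ (d + 1) * y ^ a := mul_le_mul_of_nonneg_right h1 h0.le
    _ = y ^ b := by rw [hb, pow_add]; ring

/-- Lower bound for the number of usable primes in terms of the scale `y`. -/
lemma usable_lower (m n : ℕ) (y : ℝ) (e' : ℕ) (hy : 16 + ((m : ℝ) + 1) ≤ y) (hn : 1 ≤ n)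
    (he : 1 ≤ e') (hlog : Real.log n ≤ y) (hPn : y ^ (e' + 2) + 1 ≤ (n : ℝ)) :
    y ^ e' ≤ ((usable n ⌊y ^ (e' + 2)⌋₊ m).card : ℝ) := by
  set P := ⌊y ^ (e' + 2)⌋₊ with hP
  have hy16 : (16 : ℝ) ≤ y := by
    have : (0 : ℝ) ≤ (m : ℝ) + 1 := by positivity
    linarith
  have hy1 : (1 : ℝ) ≤ y := by linarith
  have hy0 : (0 : ℝ) < y := by linarith
  have hPle : (P : ℝ) ≤ y ^ (e' + 2) := Nat.floor_le (by positivity)
  have hPge : y ^ (e' + 2) - 1 ≤ (P : ℝ) := (Nat.sub_one_lt_floor _).le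
  have hye : y ≤ y ^ e' := le_self_pow₀ hy1 (by omega)
  have hye2 : y ^ (e' + 2) = y * y * y ^ e' := by rw [pow_add]; ring
  have hPbig : 16 * y ≤ (P : ℝ) := by
    nlinarith
  have hP2 : (2 : ℝ) ≤ P := by nlinarith
  have hlogP : 0 < Real.log P := Real.log_pos (by linarith)
  have hlogPy : Real.log P ≤ y := by
    refine le_trans ?_ hlog
    exact Real.log_le_log (by linarith) (by linarith)
  have hlogP1 : Real.log (P + 1) ≤ y := by
    refine le_trans ?_ hlog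
    exact Real.log_le_log (by linarith) (by linarith)
  have hl2 : (0.6931471803 : ℝ) < Real.log 2 := Real.log_two_gt_d9
  have h1 := Chebyshev.pi_ge P
  have h2 : (P : ℝ) / 2 ≤ P * Real.log 2 - Real.log (P + 1) := by nlinarith
  have h3 : (P : ℝ) / 2 / y ≤ (Nat.primeCounting P : ℝ) := by
    refine le_trans ?_ h1
    calc (P : ℝ) / 2 / y ≤ (P : ℝ) / 2 / Real.log P := by gcongr
      _ ≤ _ := by gcongr
  have h4 := card_usable n P m hn
  have h5 : Real.log n / Real.log 2 ≤ 2 * y := by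
    rw [div_le_iff₀ (by linarith)]
    nlinarith
  have h6 : y * y ^ e' / 4 ≤ (P : ℝ) / 2 / y := by
    rw [le_div_iff₀ hy0]
    have : y * y * y ^ e' / 2 ≤ (P : ℝ) := by
      rw [← hye2]
      have : 2 ≤ y ^ (e' + 2) := by rw [hye2]; nlinarith
      linarith
    nlinarith
  have h7 : 4 * y ^ e' ≤ y * y ^ e' / 4 := by
    have : 0 ≤ y ^ e' := by positivity
    nlinarith
  linarith

lemma alg_id1 (y M : ℝ) (a b T : ℕ) :
    2 * y ^ a * (M * y ^ b) ^ T * 2 ^ T = 2 * (2 * M) ^ T * y ^ (a + b * T) := by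
  rw [mul_pow, mul_pow, ← pow_mul, pow_add]; ring

lemma alg_id2 (y F : ℝ) (q K : ℕ) :
    (2 * y ^ q) ^ K * F ^ 2 * y ^ q * 2 ^ K = 4 ^ K * F ^ 2 * y ^ (q * K + q) := by
  have : (4 : ℝ) ^ K = 2 ^ K * 2 ^ K := by rw [← mul_pow]; norm_num
  rw [this, mul_pow, ← pow_mul, pow_add]; ring

/-- Existence of small points, in terms of the scale `y = n^(1/q)`. -/
theorem core_aux (m : ℕ) : ∃ C : ℝ, ∀ (n : ℕ) (y : ℝ), C ≤ y →
    y ^ (64 * m ^ 3 + 176 * m ^ 2 + 160 * m + 48) = (n : ℝ) → Real.log n ≤ y →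
    ∃ x z : ℕ, 1 ≤ x ∧ (x : ℝ) ≤ y ^ (2 * (32 * m ^ 2 + 64 * m + 32)) ∧ 1 ≤ z ∧
      (z : ℝ) ≤ y ^ (64 * m ^ 3 + 176 * m ^ 2 + 160 * m + 47) ∧ n ∣ x * z + 1 := by
  set C1 : ℝ := 2 * (2 * ((m : ℝ) + 1)) ^ (8 * m + 6) with hC1
  set C2 : ℝ := 4 ^ (2 * (m + 1) * (m + 1)) * ((m + 1).factorial : ℝ) ^ 2 with hC2
  have hC1pos : 0 < C1 := by positivity
  have hC2pos : 0 < C2 := by positivity
  refine ⟨C1 + C2 + (16 + ((m : ℝ) + 1)) + (8 * m + 6), fun n y hCy hyn hlog => ?_⟩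
  have hm0 : (0 : ℝ) ≤ m := Nat.cast_nonneg m
  have hyC1 : C1 < y := by linarith
  have hyC2 : C2 < y := by linarith
  have hy16 : 16 + ((m : ℝ) + 1) ≤ y := by linarith
  have hyT : ((8 * m + 6 : ℕ) : ℝ) ≤ y := by push_cast; linarith
  have hy1 : (1 : ℝ) ≤ y := by linarith
  have hy0 : (0 : ℝ) < y := by linarith
  have hnpos : (0 : ℝ) < n := by rw [← hyn]; positivity
  have hn1 : 1 ≤ n := by exact_mod_cast hnpos
  have : NeZero n := ⟨by omega⟩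
  set e' := 32 * m ^ 2 + 64 * m + 30 with he'
  have hPn : y ^ (e' + 2) + 1 ≤ (n : ℝ) := by
    have h1 := mono_lt (y := y) (C := 2) (a := e' + 2)
      (b := 64 * m ^ 3 + 176 * m ^ 2 + 160 * m + 48)
      (d := 64 * m ^ 3 + 144 * m ^ 2 + 96 * m + 15) hy1 (by linarith) (by rw [he']; ring)
    rw [hyn] at h1
    have h2 : 1 ≤ y ^ (e' + 2) := one_le_pow₀ hy1
    linarith
  have hR := usable_lower m n y e' hy16 hn1 (by omega) hlog hPn
  set P := ⌊y ^ (e' + 2)⌋₊ with hP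
  set A := usable n P m with hA
  set H := ⌊y ^ (64 * m ^ 3 + 176 * m ^ 2 + 160 * m + 46)⌋₊ with hH
  have hPle : (P : ℝ) ≤ y ^ (e' + 2) := Nat.floor_le (by positivity)
  have hHle : (H : ℝ) ≤ y ^ (64 * m ^ 3 + 176 * m ^ 2 + 160 * m + 46) :=
    Nat.floor_le (by positivity)
  have hHge : y ^ (64 * m ^ 3 + 176 * m ^ 2 + 160 * m + 46) / 2 ≤ (H : ℝ) := by
    have h1 : y ^ (64 * m ^ 3 + 176 * m ^ 2 + 160 * m + 46) - 1 ≤ (H : ℝ) :=
      (Nat.sub_one_lt_floor _).le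
    have h2 : y ≤ y ^ (64 * m ^ 3 + 176 * m ^ 2 + 160 * m + 46) := le_self_pow₀ hy1 (by omega)
    linarith
  have hmem : ∀ p ∈ A, p.Prime ∧ m + 1 < p ∧ p ≤ P ∧ ¬ p ∣ n := by
    intro p hp
    simp only [hA, usable, Finset.mem_filter, Nat.mem_primesLE] at hp
    exact ⟨hp.1.2, hp.2.1, hp.1.1, hp.2.2⟩
  have hAne : A.Nonempty := by
    rw [← Finset.card_pos]
    have : (0 : ℝ) < A.card := lt_of_lt_of_le (by positivity) hR
    exact_mod_cast this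
  have hHn : H ≤ n := by
    have h1 : y ^ (64 * m ^ 3 + 176 * m ^ 2 + 160 * m + 46) ≤
        y ^ (64 * m ^ 3 + 176 * m ^ 2 + 160 * m + 48) := pow_le_pow_right₀ hy1 (by omega)
    rw [hyn] at h1
    exact_mod_cast hHle.trans h1
  -- the bound for `(m+1) P^(2m+1)`
  have hD : (((m + 1) * P ^ (2 * m + 1) : ℕ) : ℝ) ≤
      ((m : ℝ) + 1) * y ^ ((e' + 2) * (2 * m + 1)) := by
    push_cast
    rw [pow_mul]
    gcongr
  have hPn2 : (m + 1) * P ^ (2 * m + 1) < n := by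
    have h1 := mono_lt (y := y) (C := (m : ℝ) + 1) (a := (e' + 2) * (2 * m + 1))
      (b := 64 * m ^ 3 + 176 * m ^ 2 + 160 * m + 48)
      (d := 16 * m ^ 2 + 32 * m + 15) hy1 (by linarith) (by rw [he']; ring)
    rw [hyn] at h1
    exact_mod_cast lt_of_le_of_lt hD h1
  have hsmall : 2 * (n : ℝ) * (((m + 1) * P ^ (2 * m + 1) : ℕ) : ℝ) ^ (8 * m + 4 + 2) <
      (H : ℝ) ^ (8 * m + 4 + 2) := by
    have h1 := mono_lt (y := y) (C := C1)
      (a := (64 * m ^ 3 + 176 * m ^ 2 + 160 * m + 48) + (e' + 2) * (2 * m + 1) * (8 * m + 6))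
      (b := (64 * m ^ 3 + 176 * m ^ 2 + 160 * m + 46) * (8 * m + 6))
      (d := 64 * m ^ 3 + 176 * m ^ 2 + 144 * m + 35) hy1 hyC1 (by rw [he']; ring)
    have h2 : 2 * (n : ℝ) * (((m + 1) * P ^ (2 * m + 1) : ℕ) : ℝ) ^ (8 * m + 4 + 2) ≤
        2 * (n : ℝ) * (((m : ℝ) + 1) * y ^ ((e' + 2) * (2 * m + 1))) ^ (8 * m + 4 + 2) := by
      gcongr
    have h3 : (y ^ (64 * m ^ 3 + 176 * m ^ 2 + 160 * m + 46) / 2) ^ (8 * m + 4 + 2) ≤
      (H : ℝ) ^ (8 * m + 4 + 2) := by gcongr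
    refine lt_of_le_of_lt h2 (lt_of_lt_of_le ?_ h3)
    rw [div_pow, lt_div_iff₀ (by positivity), ← pow_mul, ← hyn]
    refine lt_of_eq_of_lt ?_ h1
    exact alg_id1 y ((m : ℝ) + 1) _ _ (8 * m + 6)
  have hbig : (2 * (n : ℝ)) ^ (2 * (m + 1) * (m + 1)) * (((m + 1).factorial : ℝ) ^ 2) * n ≤
      (H : ℝ) ^ (2 * (m + 1) * (m + 1)) * (A.card : ℝ) ^ (2 * (m + 1)) := by
    have h1 := mono_lt (y := y) (C := C2)
      (a := (64 * m ^ 3 + 176 * m ^ 2 + 160 * m + 48) * (2 * (m + 1) * (m + 1)) +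
        (64 * m ^ 3 + 176 * m ^ 2 + 160 * m + 48))
      (b := (64 * m ^ 3 + 176 * m ^ 2 + 160 * m + 46) * (2 * (m + 1) * (m + 1)) +
        e' * (2 * (m + 1)))
      (d := 12 * m ^ 2 + 20 * m + 7) hy1 hyC2 (by rw [he']; ring)
    have h2 : (y ^ (64 * m ^ 3 + 176 * m ^ 2 + 160 * m + 46) / 2) ^ (2 * (m + 1) * (m + 1)) *
        (y ^ e') ^ (2 * (m + 1)) ≤
        (H : ℝ) ^ (2 * (m + 1) * (m + 1)) * (A.card : ℝ) ^ (2 * (m + 1)) := by
      gcongr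
    refine le_trans ?_ h2
    rw [div_pow, ← pow_mul, ← pow_mul, div_mul_eq_mul_div, ← pow_add, le_div_iff₀ (by positivity),
      ← hyn]
    refine le_trans (le_of_eq ?_) h1.le
    exact alg_id2 y _ _ _
  obtain ⟨x, z, hx1, hx2, hz1, hz2, hdvd⟩ :=
    finite_solution (t := 8 * m + 4) A hmem hAne hHn hPn2 hsmall hbig
  refine ⟨x, z, hx1, ?_, hz1, ?_, hdvd⟩
  · have h1 : (x : ℝ) ≤ (P : ℝ) ^ 2 := by exact_mod_cast hx2
    refine h1.trans ?_
    have h2 : (P : ℝ) ^ 2 ≤ (y ^ (e' + 2)) ^ 2 := by gcongr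
    refine h2.trans (le_of_eq ?_)
    rw [← pow_mul]
    congr 1
    rw [he']; ring
  · have h1 : (z : ℝ) ≤ ((8 * m + 4 + 2 : ℕ) : ℝ) * H := by exact_mod_cast hz2
    refine h1.trans ?_
    have h2 : ((8 * m + 4 + 2 : ℕ) : ℝ) * H ≤
        y * y ^ (64 * m ^ 3 + 176 * m ^ 2 + 160 * m + 46) := by
      gcongr
    refine h2.trans (le_of_eq ?_)
    rw [← pow_succ']

/-- For every `δ > 0` there is `c > 0` such that for all large `n` the congruence
`x z = -1` modulo `n` has a solution with `x ≤ n^δ` and `z ≤ n^(1-c)`. -/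
theorem core (δ : ℝ) (hδ : 0 < δ) : ∃ c : ℝ, 0 < c ∧ ∃ N : ℕ, ∀ n : ℕ, N ≤ n →
    ∃ x z : ℕ, 1 ≤ x ∧ (x : ℝ) ≤ (n : ℝ) ^ δ ∧ 1 ≤ z ∧ (z : ℝ) ≤ (n : ℝ) ^ (1 - c) ∧
      n ∣ x * z + 1 := by
  obtain ⟨m, hm⟩ := exists_nat_ge (1 / δ)
  obtain ⟨C, hC⟩ := core_aux m
  set q : ℕ := 64 * m ^ 3 + 176 * m ^ 2 + 160 * m + 48 with hq
  have hq0 : q ≠ 0 := by omega
  have hqpos : (0 : ℝ) < q := by positivity
  have hr : (0 : ℝ) < (q : ℝ)⁻¹ := by positivity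
  have h1 : Filter.Tendsto (fun n : ℕ => (n : ℝ) ^ ((q : ℝ)⁻¹)) Filter.atTop Filter.atTop :=
    (tendsto_rpow_atTop hr).comp tendsto_natCast_atTop_atTop
  have h2 : ∀ᶠ n : ℕ in Filter.atTop, Real.log n ≤ (n : ℝ) ^ ((q : ℝ)⁻¹) := by
    have h3 := (isLittleO_log_rpow_atTop hr).bound (c := 1) one_pos
    have h4 := tendsto_natCast_atTop_atTop.eventually h3
    filter_upwards [h4] with n hn
    have h5 : ‖(n : ℝ) ^ ((q : ℝ)⁻¹)‖ = (n : ℝ) ^ ((q : ℝ)⁻¹) := Real.norm_of_nonneg (by positivity)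
    rw [one_mul, h5] at hn
    exact (Real.le_norm_self _).trans hn
  have h3 := h1.eventually (Filter.eventually_ge_atTop C)
  have h4 := (h2.and h3).and (Filter.eventually_ge_atTop 1)
  obtain ⟨N, hN⟩ := Filter.eventually_atTop.1 h4
  refine ⟨(q : ℝ)⁻¹, hr, N, fun n hn => ?_⟩
  obtain ⟨⟨hlog, hCn⟩, hn1⟩ := hN n hn
  have hn1' : (1 : ℝ) ≤ n := by exact_mod_cast hn1
  have hn0 : (0 : ℝ) ≤ n := by linarith
  have hyq : ((n : ℝ) ^ ((q : ℝ)⁻¹)) ^ q = n := Real.rpow_inv_natCast_pow hn0 hq0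
  obtain ⟨x, z, hx1, hx2, hz1, hz2, hdvd⟩ := hC n _ hCn hyq hlog
  refine ⟨x, z, hx1, ?_, hz1, ?_, hdvd⟩
  · refine hx2.trans ?_
    rw [← Real.rpow_natCast, ← Real.rpow_mul hn0]
    refine Real.rpow_le_rpow_of_exponent_le hn1' ?_
    rw [inv_mul_le_iff₀ hqpos]
    have h5 : 1 ≤ δ * m := by
      rw [div_le_iff₀ hδ] at hm; linarith
    have hm0 : (0 : ℝ) ≤ m := Nat.cast_nonneg m
    have h6 : (q : ℝ) * δ = (64 * m ^ 2 + 176 * m + 160) * (δ * m) + 48 * δ := by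
      rw [hq]; push_cast; ring
    rw [h6]
    push_cast
    nlinarith
  · refine hz2.trans (le_of_eq ?_)
    rw [← Real.rpow_natCast, ← Real.rpow_mul hn0]
    congr 1
    have h7 : ((64 * m ^ 3 + 176 * m ^ 2 + 160 * m + 47 : ℕ) : ℝ) = (q : ℝ) - 1 := by
      rw [hq]; push_cast; ring
    rw [h7]
    field_simp

end Pool.Agent.Helper12
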