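import Pool.Agent.Helper12.PrimeEnergy

set_option autoImplicit false

open Finset

namespace Pool.Agent.Helper12

/-- Finite form of the existence theorem for small points on `x z = -1` modulo `n`. -/
theorem finite_solution {n m t P H : ℕ} [NeZero n] (A : Finset ℕ)
    (hA : ∀ p ∈ A, p.Prime ∧ m + 1 < p ∧ p ≤ P ∧ ¬ p ∣ n) (hAne : A.Nonempty)
    (hH : H ≤ n) (hPn : (m + 1) * P ^ (2 * m + 1) < n)
    (hsmall : 2 * (n : ℝ) * (((m + 1) * P ^ (2 * m + 1) : ℕ) : ℝ) ^ (t + 2) < (H : ℝ) ^ (t + 2))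
    (hbig : (2 * (n : ℝ)) ^ (2 * (m + 1) * (m + 1)) * (((m + 1).factorial : ℝ) ^ 2) * n ≤
      (H : ℝ) ^ (2 * (m + 1) * (m + 1)) * (A.card : ℝ) ^ (2 * (m + 1))) :
    ∃ x z : ℕ, 1 ≤ x ∧ x ≤ P ^ 2 ∧ 1 ≤ z ∧ z ≤ (t + 2) * H ∧ n ∣ x * z + 1 := by
  classical
  have hn0 : 0 < n := Nat.pos_of_ne_zero (NeZero.ne n)
  have hn : (0 : ℝ) < n := by exact_mod_cast hn0
  have hR : (0 : ℝ) < A.card := by exact_mod_cast hAne.card_pos
  set u : ℕ → ZMod n := fun p => ((p : ZMod n))⁻¹ with hu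
  have hE1 : (energy (m + 1) A u : ℝ) ≤ (m + 1).factorial * (A.card : ℝ) ^ (m + 1) := by
    have h1 := energy_le (n := n) (m := m) (P := P) A hA 1 (by rwa [ZMod.addOrderOf_one])
    have h2 : (fun p : ℕ => (1 : ZMod n) * ((p : ZMod n))⁻¹) = u := by
      funext p; simp [hu]
    rw [h2] at h1
    exact_mod_cast h1
  have hσ0 : (0 : ℝ) ≤ H * (A.card * A.card) / (2 * n) := by positivity
  obtain ⟨a, ha, b, hb, f, hf, hsol⟩ := exists_solution (n := n) t H ((m + 1) * P ^ (2 * m + 1))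
    A A u u hAne hAne hH hsmall (H * (A.card * A.card) / (2 * n)) hσ0
    (by rw [mul_div_cancel₀]; positivity) (by
      intro h hh
      have hE2 : (energy (m + 1) A (fun p => h * u p) : ℝ) ≤
          (m + 1).factorial * (A.card : ℝ) ^ (m + 1) := by
        have h1 := energy_le (n := n) (m := m) (P := P) A hA h hh
        exact_mod_cast h1
      have hb := bilinear_bound (n := n) m A A u u h
      have hK : 2 * (m + 1) * (m + 1) ≠ 0 := by positivity
      refine le_of_pow_le_pow_left₀ hK hσ0 (hb.trans ?_)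
      have h2 : (energy (m + 1) A (fun p => h * u p) : ℝ) * (n * energy (m + 1) A u) ≤
          ((m + 1).factorial * (A.card : ℝ) ^ (m + 1)) *
          (n * ((m + 1).factorial * (A.card : ℝ) ^ (m + 1))) := by
        gcongr
      refine (mul_le_mul_of_nonneg_left h2 (by positivity)).trans ?_
      rw [div_pow, le_div_iff₀ (by positivity)]
      have e1 : (A.card : ℝ) ^ (2 * (m + 1) * m) * (A.card : ℝ) ^ (2 * (m + 1) * m) *
          (((m + 1).factorial * (A.card : ℝ) ^ (m + 1)) *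
          (n * ((m + 1).factorial * (A.card : ℝ) ^ (m + 1)))) * (2 * n) ^ (2 * (m + 1) * (m + 1)) =
          ((2 * (n : ℝ)) ^ (2 * (m + 1) * (m + 1)) * (((m + 1).factorial : ℝ) ^ 2) * n) *
          ((A.card : ℝ) ^ (4 * (m + 1) * m + 2 * (m + 1))) := by
        ring
      have e2 : (H * ((A.card : ℝ) * A.card)) ^ (2 * (m + 1) * (m + 1)) =
          ((H : ℝ) ^ (2 * (m + 1) * (m + 1)) * (A.card : ℝ) ^ (2 * (m + 1))) *
          ((A.card : ℝ) ^ (4 * (m + 1) * m + 2 * (m + 1))) := by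
        ring
      rw [e1, e2]
      exact mul_le_mul_of_nonneg_right hbig (by positivity))
  obtain ⟨ha1, -, ha3, ha4⟩ := hA a ha
  obtain ⟨hb1, -, hb3, hb4⟩ := hA b hb
  refine ⟨a * b, ∑ i, (f i + 1), ?_, ?_, ?_, ?_, ?_⟩
  · exact Nat.mul_pos ha1.pos hb1.pos
  · rw [sq]; exact Nat.mul_le_mul ha3 hb3
  · have h1 : (f 0 + 1) ≤ ∑ i, (f i + 1) :=
      Finset.single_le_sum (f := fun i => f i + 1) (fun _ _ => Nat.zero_le _) (Finset.mem_univ 0)
    omega
  · refine (Finset.sum_le_card_nsmul _ _ H (fun i _ => hf i)).trans ?_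
    simp
  · have ha5 : (a : ZMod n) * u a = 1 :=
      ZMod.coe_mul_inv_eq_one a ((Nat.Prime.coprime_iff_not_dvd ha1).2 ha4)
    have hb5 : (b : ZMod n) * u b = 1 :=
      ZMod.coe_mul_inv_eq_one b ((Nat.Prime.coprime_iff_not_dvd hb1).2 hb4)
    have h1 : ((a * b * (∑ i, (f i + 1)) + 1 : ℕ) : ZMod n) = 0 := by
      have h2 : ((a * b * (∑ i, (f i + 1)) + 1 : ℕ) : ZMod n) =
          (a : ZMod n) * b * (((∑ i, (f i + 1)) : ℕ) : ZMod n) + ((a : ZMod n) * u a) *
            ((b : ZMod n) * u b) := by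
        rw [ha5, hb5]; push_cast; ring
      rw [h2]
      have h3 : (a : ZMod n) * b * (((∑ i, (f i + 1)) : ℕ) : ZMod n) + ((a : ZMod n) * u a) *
            ((b : ZMod n) * u b) = (a : ZMod n) * b *
            (u a * u b + (((∑ i, (f i + 1)) : ℕ) : ZMod n)) := by ring
      rw [h3, hsol, mul_zero]
    exact (ZMod.natCast_eq_zero_iff _ _).1 h1

end Pool.Agent.Helper12
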