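import Pool.Agent.Helper12.Core

set_option autoImplicit false

open Finset

namespace Pool.Agent.Helper12

/-- The modular hyperbola as a subset of the plane. -/
def hyp (n : ℕ) : Set (ℝ × ℝ) :=
  {p : ℝ × ℝ | ∃ x y : ℕ, 1 ≤ x ∧ x ≤ n - 1 ∧ 1 ≤ y ∧ y ≤ n - 1 ∧
    Nat.ModEq n (x * y) 1 ∧ p = ((x : ℝ), (y : ℝ))}

lemma hyp_finite (n : ℕ) : (hyp n).Finite := by
  refine Set.Finite.subset (((Finset.Icc 1 (n - 1) ×ˢ Finset.Icc 1 (n - 1)).finite_toSet).image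
    (fun q : ℕ × ℕ => ((q.1 : ℝ), (q.2 : ℝ)))) ?_
  rintro p ⟨x, y, hx1, hx2, hy1, hy2, -, rfl⟩
  refine ⟨(x, y), ?_, rfl⟩
  rw [Finset.mem_coe, Finset.mem_product, Finset.mem_Icc, Finset.mem_Icc]
  exact ⟨⟨hx1, hx2⟩, hy1, hy2⟩

/-- A linear functional is maximised on a finite set at an extreme point of the hull. -/
lemma exists_extreme_max (S : Set (ℝ × ℝ)) (hfin : S.Finite) (hne : S.Nonempty)
    (l : (ℝ × ℝ) →L[ℝ] ℝ) :
    ∃ e ∈ Set.extremePoints ℝ (convexHull ℝ S), ∀ p ∈ S, l p ≤ l e := by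
  have hK : IsCompact (convexHull ℝ S) := hfin.isCompact_convexHull ℝ
  have hKne : (convexHull ℝ S).Nonempty := hne.convexHull
  obtain ⟨k, hk, hmax⟩ := hK.exists_isMaxOn hKne l.continuous.continuousOn
  have hexp : IsExposed ℝ (convexHull ℝ S) (l.toExposed (convexHull ℝ S)) :=
    ContinuousLinearMap.toExposed.isExposed
  have hFne : (l.toExposed (convexHull ℝ S)).Nonempty := ⟨k, hk, fun y hy => hmax hy⟩
  have hFc : IsCompact (l.toExposed (convexHull ℝ S)) := hexp.isCompact hK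
  obtain ⟨e, he⟩ := hFc.extremePoints_nonempty hFne
  refine ⟨e, hexp.isExtreme.extremePoints_subset_extremePoints he, fun p hp => ?_⟩
  have := (extremePoints_subset he).2
  exact this p (subset_convexHull ℝ S hp)

/-- The functional `y - s x`. -/
noncomputable def func (s : ℝ) : (ℝ × ℝ) →L[ℝ] ℝ :=
  ContinuousLinearMap.snd ℝ ℝ ℝ - s • ContinuousLinearMap.fst ℝ ℝ ℝ

lemma func_apply (s : ℝ) (p : ℝ × ℝ) : func s p = p.2 - s * p.1 := by
  simp [func]

/-- One extreme point in a prescribed range of scales. -/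
lemma extreme_step (δ : ℝ) (hδ : 0 < δ) (hδ1 : δ < 1) : ∃ c : ℝ, 0 < c ∧ ∃ N : ℕ, ∀ n : ℕ, N ≤ n →
    ∃ e ∈ Set.extremePoints ℝ (convexHull ℝ (hyp n)),
      (n : ℝ) ^ c ≤ 4 * e.1 ∧ e.1 ≤ 2 * (n : ℝ) ^ δ := by
  obtain ⟨c, hc, N, hN⟩ := core δ hδ
  refine ⟨c, hc, max N 2, fun n hn => ?_⟩
  have hnN : N ≤ n := (le_max_left _ _).trans hn
  have hn2 : 2 ≤ n := (le_max_right _ _).trans hn
  have hn2' : (2 : ℝ) ≤ n := by exact_mod_cast hn2
  have hn0 : (0 : ℝ) < n := by linarith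
  have hn1 : (1 : ℝ) < n := by linarith
  obtain ⟨x0, z0, hx1, hx2, hz1, hz2, hdvd⟩ := hN n hnN
  have hx0n : x0 ≤ n - 1 := by
    have h1 : (n : ℝ) ^ δ < n := by
      calc (n : ℝ) ^ δ < (n : ℝ) ^ (1 : ℝ) := Real.rpow_lt_rpow_of_exponent_lt hn1 hδ1
        _ = n := Real.rpow_one _
    have h2 : (x0 : ℝ) < n := lt_of_le_of_lt hx2 h1
    have h3 : x0 < n := by exact_mod_cast h2
    omega
  have hz0n : z0 ≤ n - 1 := by
    have h1 : (n : ℝ) ^ (1 - c) < n := by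
      calc (n : ℝ) ^ (1 - c) < (n : ℝ) ^ (1 : ℝ) :=
            Real.rpow_lt_rpow_of_exponent_lt hn1 (by linarith)
        _ = n := Real.rpow_one _
    have h2 : (z0 : ℝ) < n := lt_of_le_of_lt hz2 h1
    have h3 : z0 < n := by exact_mod_cast h2
    omega
  have hmem0 : (((x0 : ℝ), ((n - z0 : ℕ) : ℝ)) : ℝ × ℝ) ∈ hyp n := by
    refine ⟨x0, n - z0, hx1, hx0n, by omega, by omega, ?_, rfl⟩
    have h1 : x0 * (n - z0) + (x0 * z0 + 1) = 1 + x0 * n := by
      zify [show z0 ≤ n by omega]; ring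
    have h2 : (x0 * (n - z0) + (x0 * z0 + 1)) ≡ x0 * (n - z0) [MOD n] := by
      calc x0 * (n - z0) + (x0 * z0 + 1) ≡ x0 * (n - z0) + 0 [MOD n] :=
            Nat.ModEq.add_left _ ((Nat.modEq_zero_iff_dvd).2 hdvd)
        _ = x0 * (n - z0) := by rw [add_zero]
    have h3 : 1 + x0 * n ≡ 1 [MOD n] := by
      calc 1 + x0 * n ≡ 1 + 0 [MOD n] :=
            Nat.ModEq.add_left _ ((Nat.modEq_zero_iff_dvd).2 (Dvd.intro_left _ rfl))
        _ = 1 := by rw [add_zero]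
    rw [h1] at h2
    exact h2.symm.trans h3
  obtain ⟨e, he, hmax⟩ := exists_extreme_max (hyp n) (hyp_finite n) ⟨_, hmem0⟩
    (func ((n : ℝ) ^ (1 - c - δ)))
  refine ⟨e, he, ?_⟩
  obtain ⟨x, y, hx1', hx2', hy1', hy2', hmod, rfl⟩ := extremePoints_convexHull_subset he
  have h1 := hmax _ hmem0
  rw [func_apply, func_apply] at h1
  simp only at h1 ⊢
  set s : ℝ := (n : ℝ) ^ (1 - c - δ) with hs
  have hspos : 0 < s := Real.rpow_pos_of_pos hn0 _
  have hsd : s * (n : ℝ) ^ δ = (n : ℝ) ^ (1 - c) := by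
    rw [hs, ← Real.rpow_add hn0]; congr 1; ring
  have hcast : ((n - z0 : ℕ) : ℝ) = (n : ℝ) - z0 := by
    rw [Nat.cast_sub (by omega)]
  rw [hcast] at h1
  have h2 : s * x0 ≤ (n : ℝ) ^ (1 - c) := by
    rw [← hsd]; exact mul_le_mul_of_nonneg_left hx2 hspos.le
  have hylt : (y : ℝ) ≤ n := by exact_mod_cast (show y ≤ n by omega)
  have hxpos : (0 : ℝ) < x := by exact_mod_cast hx1'
  have hz : (n : ℝ) - y ≤ 2 * (n : ℝ) ^ (1 - c) := by
    have : 0 < s * x := by positivity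
    linarith
  have hx : s * x ≤ 2 * (n : ℝ) ^ (1 - c) := by linarith
  -- divisibility
  have hdvd' : n ∣ x * (n - y) + 1 := by
    have h3 : (x * (n - y) + 1) + x * y = 1 + x * n := by
      zify [show y ≤ n by omega]; ring
    have h4 : (x * (n - y) + 1) + x * y ≡ 0 + x * y [MOD n] := by
      rw [h3, zero_add]
      calc 1 + x * n ≡ 1 + 0 [MOD n] :=
            Nat.ModEq.add_left _ ((Nat.modEq_zero_iff_dvd).2 (Dvd.intro_left _ rfl))
        _ = 1 := by rw [add_zero]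
        _ ≡ x * y [MOD n] := hmod.symm
    exact (Nat.modEq_zero_iff_dvd).1 (Nat.ModEq.add_right_cancel' _ h4)
  have hge : (n : ℝ) - 1 ≤ x * ((n : ℝ) - y) := by
    have h3 : n ≤ x * (n - y) + 1 := Nat.le_of_dvd (by omega) hdvd'
    have h4 : (n : ℝ) ≤ x * ((n - y : ℕ) : ℝ) + 1 := by exact_mod_cast h3
    rw [Nat.cast_sub (by omega)] at h4
    linarith
  have hnc : (0 : ℝ) < (n : ℝ) ^ (1 - c) := Real.rpow_pos_of_pos hn0 _
  have hprod : (n : ℝ) ^ c * (n : ℝ) ^ (1 - c) = n := by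
    rw [← Real.rpow_add hn0]; simp
  constructor
  · have h3 : (n : ℝ) / 2 ≤ x * (2 * (n : ℝ) ^ (1 - c)) := by
      have h4 : x * ((n : ℝ) - y) ≤ x * (2 * (n : ℝ) ^ (1 - c)) :=
        mul_le_mul_of_nonneg_left hz hxpos.le
      linarith
    have h5 : (n : ℝ) ^ c * (n : ℝ) ^ (1 - c) ≤ (4 * x) * (n : ℝ) ^ (1 - c) := by
      rw [hprod]; linarith
    exact le_of_mul_le_mul_right h5 hnc
  · have h3 : s * x ≤ s * (2 * (n : ℝ) ^ δ) := by
      calc s * x ≤ 2 * (n : ℝ) ^ (1 - c) := hx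
        _ = s * (2 * (n : ℝ) ^ δ) := by rw [← hsd]; ring
    exact le_of_mul_le_mul_left h3 hspos

lemma eventually_mul_rpow_lt (C a b : ℝ) (hab : a < b) :
    ∃ N : ℕ, ∀ n : ℕ, N ≤ n → C * (n : ℝ) ^ a < (n : ℝ) ^ b := by
  have h1 : Filter.Tendsto (fun n : ℕ => (n : ℝ) ^ (b - a)) Filter.atTop Filter.atTop :=
    (tendsto_rpow_atTop (by linarith)).comp tendsto_natCast_atTop_atTop
  have h2 := (h1.eventually (Filter.eventually_gt_atTop C)).and (Filter.eventually_ge_atTop 1)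
  obtain ⟨N, hN⟩ := Filter.eventually_atTop.1 h2
  refine ⟨N, fun n hn => ?_⟩
  obtain ⟨h3, h4⟩ := hN n hn
  have hn0 : (0 : ℝ) < n := by exact_mod_cast h4
  have h5 : (n : ℝ) ^ b = (n : ℝ) ^ (b - a) * (n : ℝ) ^ a := by
    rw [← Real.rpow_add hn0]; congr 1; ring
  rw [h5]
  exact mul_lt_mul_of_pos_right h3 (Real.rpow_pos_of_pos hn0 _)

/-- Arbitrarily many extreme points near the corner. -/
lemma many_extreme (M : ℕ) : ∀ δ : ℝ, 0 < δ → ∃ N : ℕ, ∀ n : ℕ, N ≤ n →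
    ∃ T : Finset (ℝ × ℝ), T.card = M ∧ ∀ p ∈ T,
      p ∈ Set.extremePoints ℝ (convexHull ℝ (hyp n)) ∧ p.1 ≤ (n : ℝ) ^ δ := by
  classical
  induction M with
  | zero =>
    intro δ _
    exact ⟨0, fun n _ => ⟨∅, rfl, by simp⟩⟩
  | succ M ih =>
    intro δ hδ
    have hδ' : 0 < min δ 1 / 2 := by positivity
    have hδ1 : min δ 1 / 2 < 1 := by
      have := min_le_right δ 1
      linarith
    obtain ⟨c, hc, N1, hN1⟩ := extreme_step (min δ 1 / 2) hδ' hδ1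
    obtain ⟨N2, hN2⟩ := ih (min (c / 2) δ) (by positivity)
    obtain ⟨N3, hN3⟩ := eventually_mul_rpow_lt 4 (c / 2) c (by linarith)
    obtain ⟨N4, hN4⟩ := eventually_mul_rpow_lt 2 (min δ 1 / 2) δ (by
      have := min_le_left δ 1
      linarith)
    refine ⟨max (max N1 N2) (max (max N3 N4) 1), fun n hn => ?_⟩
    simp only [max_le_iff] at hn
    obtain ⟨⟨h1, h2⟩, ⟨h3, h4⟩, h5⟩ := hn
    have hn1 : (1 : ℝ) ≤ n := by exact_mod_cast h5
    obtain ⟨e, he, he1, he2⟩ := hN1 n h1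
    obtain ⟨T, hT1, hT2⟩ := hN2 n h2
    have hb1 : ∀ p ∈ T, p.1 < e.1 := by
      intro p hp
      have h6 := (hT2 p hp).2
      have h7 : (n : ℝ) ^ (min (c / 2) δ) ≤ (n : ℝ) ^ (c / 2) :=
        Real.rpow_le_rpow_of_exponent_le hn1 (min_le_left _ _)
      have h8 := hN3 n h3
      linarith
    refine ⟨insert e T, ?_, ?_⟩
    · rw [Finset.card_insert_of_notMem, hT1]
      intro he'
      exact lt_irrefl _ (hb1 e he')
    · intro p hp
      rw [Finset.mem_insert] at hp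
      rcases hp with rfl | hp
      · exact ⟨he, he2.trans (hN4 n h4).le⟩
      · refine ⟨(hT2 p hp).1, (hT2 p hp).2.trans ?_⟩
        exact Real.rpow_le_rpow_of_exponent_le hn1 (min_le_right _ _)

/-- The number of vertices of the hull of the modular hyperbola tends to infinity. -/
theorem vertices_tendsto (M : ℕ) : ∃ N : ℕ, ∀ n : ℕ, N ≤ n →
    M ≤ (Set.extremePoints ℝ (convexHull ℝ (hyp n))).ncard := by
  obtain ⟨N, hN⟩ := many_extreme M 1 one_pos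
  refine ⟨N, fun n hn => ?_⟩
  obtain ⟨T, hT1, hT2⟩ := hN n hn
  have hfin : (Set.extremePoints ℝ (convexHull ℝ (hyp n))).Finite :=
    (hyp_finite n).subset extremePoints_convexHull_subset
  rw [← hT1, ← Set.ncard_coe_finset T]
  exact Set.ncard_le_ncard (fun p hp => (hT2 p (Finset.mem_coe.1 hp)).1) hfin

end Pool.Agent.Helper12
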