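import Pool.Agent.Helper12.CharSum

set_option autoImplicit false

open Finset

namespace Pool.Agent.Helper12

/-- Two functions with the same fibre sizes differ by a permutation. -/
lemma exists_perm_of_fiber_card {ι : Type*} [DecidableEq ι] {k : ℕ} (f g : Fin k → ι)
    (h : ∀ y, (Finset.univ.filter (fun i => f i = y)).card =
      (Finset.univ.filter (fun i => g i = y)).card) :
    ∃ σ : Equiv.Perm (Fin k), g = f ∘ σ := by
  classical
  have e : ∀ y, Nonempty ({i // g i = y} ≃ {i // f i = y}) := by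
    intro y
    rw [← Fintype.card_eq, Fintype.card_subtype, Fintype.card_subtype, h y]
  have e'' : ∀ y, {i // g i = y} ≃ {i // f i = y} := fun y => (e y).some
  refine ⟨(Equiv.sigmaFiberEquiv g).symm.trans
    ((Equiv.sigmaCongrRight e'').trans (Equiv.sigmaFiberEquiv f)), ?_⟩
  funext i
  simp only [Function.comp_apply, Equiv.trans_apply]
  exact (((e'' (g i)) ⟨i, rfl⟩).2).symm

/-- Sums of `k` reciprocals of primes larger than `k` determine the primes. -/
lemma fiber_card_of_recip_sum_eq {k : ℕ} (f g : Fin k → ℕ)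
    (hf : ∀ i, (f i).Prime ∧ k < f i) (hg : ∀ i, (g i).Prime ∧ k < g i)
    (h : ∑ i, (1 / (f i : ℚ)) = ∑ i, (1 / (g i : ℚ))) (y : ℕ) :
    (Finset.univ.filter (fun i => f i = y)).card =
      (Finset.univ.filter (fun i => g i = y)).card := by
  classical
  by_cases hy : y.Prime ∧ k < y
  · obtain ⟨hyp, hky⟩ := hy
    have : Fact y.Prime := ⟨hyp⟩
    set a := (Finset.univ.filter (fun i => f i = y)).card with ha
    set b := (Finset.univ.filter (fun i => g i = y)).card with hb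
    have split : ∀ F : Fin k → ℕ, ∑ i, (1 / (F i : ℚ)) =
        ((Finset.univ.filter (fun i => F i = y)).card : ℚ) * (1 / (y : ℚ)) +
        ∑ i ∈ Finset.univ.filter (fun i => ¬ F i = y), (1 / (F i : ℚ)) := by
      intro F
      rw [← Finset.sum_filter_add_sum_filter_not Finset.univ (fun i => F i = y)]
      congr 1
      rw [Finset.sum_congr rfl (g := fun _ => 1 / (y : ℚ))]
      · simp
      · intro i hi
        rw [(Finset.mem_filter.1 hi).2]
    have hsmall : ∀ F : Fin k → ℕ, (∀ i, (F i).Prime ∧ k < F i) →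
        padicNorm y (∑ i ∈ Finset.univ.filter (fun i => ¬ F i = y), (1 / (F i : ℚ))) ≤ 1 := by
      intro F hF
      refine padicNorm.sum_le' ?_ zero_le_one
      intro i hi
      have hne : ¬ F i = y := (Finset.mem_filter.1 hi).2
      rw [padicNorm.div, padicNorm.one]
      have : padicNorm y (F i : ℚ) = 1 := by
        rw [padicNorm.nat_eq_one_iff]
        intro hd
        exact hne ((Nat.prime_dvd_prime_iff_eq hyp (hF i).1).1 hd).symm
      rw [this]; norm_num
    rw [split f, split g] at h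
    have h1 : ((a : ℤ) - (b : ℤ) : ℤ) * (1 / (y : ℚ)) =
        (∑ i ∈ Finset.univ.filter (fun i => ¬ g i = y), (1 / (g i : ℚ))) -
        ∑ i ∈ Finset.univ.filter (fun i => ¬ f i = y), (1 / (f i : ℚ)) := by
      push_cast
      linarith
    have h2 : padicNorm y (((a : ℤ) - (b : ℤ) : ℤ) * (1 / (y : ℚ))) ≤ 1 := by
      rw [h1]
      refine (padicNorm.sub).trans ?_
      exact max_le (hsmall g hg) (hsmall f hf)
    have hypos : (0 : ℚ) < y := by exact_mod_cast hyp.pos
    have h3 : padicNorm y (((a : ℤ) - (b : ℤ) : ℤ) : ℚ) ≤ (y : ℚ) ^ (-(1 : ℕ) : ℤ) := by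
      rw [padicNorm.mul, padicNorm.div, padicNorm.one, padicNorm.padicNorm_p_of_prime] at h2
      rw [Nat.cast_one, zpow_neg, zpow_one]
      have e1 : (1 / (y : ℚ)⁻¹) = y := by simp
      rw [e1] at h2
      rw [← one_div, le_div_iff₀ hypos]
      exact h2
    have h4 : ((y ^ 1 : ℕ) : ℤ) ∣ ((a : ℤ) - (b : ℤ)) := by
      rw [padicNorm.dvd_iff_norm_le]
      exact h3
    rw [pow_one] at h4
    have hak : a ≤ k := by
      have := Finset.card_le_univ (Finset.univ.filter (fun i => f i = y))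
      simpa using this
    have hbk : b ≤ k := by
      have := Finset.card_le_univ (Finset.univ.filter (fun i => g i = y))
      simpa using this
    have h5 : ((a : ℤ) - (b : ℤ)) = 0 := by
      refine Int.eq_zero_of_abs_lt_dvd h4 ?_
      rw [abs_lt]; constructor <;> omega
    omega
  · have e1 : ∀ F : Fin k → ℕ, (∀ i, (F i).Prime ∧ k < F i) →
        (Finset.univ.filter (fun i => F i = y)).card = 0 := by
      intro F hF
      rw [Finset.card_eq_zero, Finset.filter_eq_empty_iff]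
      intro i _ hi
      exact hy (hi ▸ hF i)
    rw [e1 f hf, e1 g hg]

/-- Numerator of a sum of reciprocals. -/
def numer {k : ℕ} (f : Fin k → ℕ) : ℕ := ∑ i, ∏ j ∈ Finset.univ.erase i, f j

lemma numer_zmod {n k : ℕ} (f : Fin k → ℕ) (hf : ∀ i, (f i).Coprime n) :
    ((∏ i, f i : ℕ) : ZMod n) * ∑ i, ((f i : ZMod n))⁻¹ = (numer f : ZMod n) := by
  rw [numer, Finset.mul_sum]
  push_cast
  refine Finset.sum_congr rfl fun i _ => ?_
  rw [← Finset.mul_prod_erase _ _ (Finset.mem_univ i)]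
  have := ZMod.coe_mul_inv_eq_one (f i) (hf i)
  calc (f i : ZMod n) * (∏ j ∈ Finset.univ.erase i, (f j : ZMod n)) * (f i : ZMod n)⁻¹
      = ((f i : ZMod n) * (f i : ZMod n)⁻¹) * ∏ j ∈ Finset.univ.erase i, (f j : ZMod n) := by ring
    _ = _ := by rw [this, one_mul]

lemma numer_rat {k : ℕ} (f : Fin k → ℕ) (hf : ∀ i, f i ≠ 0) :
    ((∏ i, f i : ℕ) : ℚ) * ∑ i, (1 / (f i : ℚ)) = (numer f : ℚ) := by
  rw [numer, Finset.mul_sum]
  push_cast
  refine Finset.sum_congr rfl fun i _ => ?_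
  rw [← Finset.mul_prod_erase _ _ (Finset.mem_univ i)]
  have : (f i : ℚ) ≠ 0 := by exact_mod_cast hf i
  field_simp

lemma numer_le {m P : ℕ} (f : Fin (m + 1) → ℕ) (hf : ∀ i, f i ≤ P) :
    numer f ≤ (m + 1) * P ^ m := by
  rw [numer]
  have h1 : ∀ i ∈ (Finset.univ : Finset (Fin (m + 1))),
      ∏ j ∈ Finset.univ.erase i, f j ≤ P ^ m := by
    intro i _
    refine (Finset.prod_le_pow_card _ _ P (fun j _ => hf j)).trans ?_
    rw [Finset.card_erase_of_mem (Finset.mem_univ i), Finset.card_univ, Fintype.card_fin]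
    simp
  refine (Finset.sum_le_card_nsmul _ _ _ h1).trans ?_
  simp

lemma prod_le {m P : ℕ} (f : Fin (m + 1) → ℕ) (hf : ∀ i, f i ≤ P) :
    ∏ i, f i ≤ P ^ (m + 1) := by
  refine (Finset.prod_le_pow_card _ _ P (fun j _ => hf j)).trans ?_
  simp

/-- The key diophantine step: solutions of the congruence are diagonal. -/
lemma recip_sum_eq_of_zmod {n m P : ℕ} [NeZero n] (h : ZMod n)
    (hord : (m + 1) * P ^ (2 * m + 1) < addOrderOf h) (f g : Fin (m + 1) → ℕ)
    (hf : ∀ i, (f i).Coprime n ∧ f i ≠ 0 ∧ f i ≤ P) (hg : ∀ i, (g i).Coprime n ∧ g i ≠ 0 ∧ g i ≤ P)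
    (heq : ∑ i, h * ((f i : ZMod n))⁻¹ = ∑ i, h * ((g i : ZMod n))⁻¹) :
    ∑ i, (1 / (f i : ℚ)) = ∑ i, (1 / (g i : ℚ)) := by
  have hf1 := numer_zmod (n := n) f (fun i => (hf i).1)
  have hg1 := numer_zmod (n := n) g (fun i => (hg i).1)
  rw [← Finset.mul_sum, ← Finset.mul_sum] at heq
  set F := ∏ i, f i with hF
  set G := ∏ i, g i with hG
  have hZ : ((((numer f * G : ℕ) : ℤ) - ((numer g * F : ℕ) : ℤ) : ℤ) : ZMod n) * h = 0 := by
    push_cast
    rw [← hf1, ← hg1]
    calc _ = (F : ZMod n) * G * (h * ∑ i, ((f i : ZMod n))⁻¹) -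
          (F : ZMod n) * G * (h * ∑ i, ((g i : ZMod n))⁻¹) := by ring
      _ = 0 := by rw [heq]; ring
  have hdvd : ((addOrderOf h : ℕ) : ℤ) ∣ (((numer f * G : ℕ) : ℤ) - ((numer g * F : ℕ) : ℤ)) := by
    rw [addOrderOf_dvd_iff_zsmul_eq_zero, zsmul_eq_mul]
    exact hZ
  have hFP : F ≤ P ^ (m + 1) := prod_le f (fun i => (hf i).2.2)
  have hGP : G ≤ P ^ (m + 1) := prod_le g (fun i => (hg i).2.2)
  have hNf : numer f ≤ (m + 1) * P ^ m := numer_le f (fun i => (hf i).2.2)
  have hNg : numer g ≤ (m + 1) * P ^ m := numer_le g (fun i => (hg i).2.2)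
  have hb1 : numer f * G ≤ (m + 1) * P ^ (2 * m + 1) := by
    calc numer f * G ≤ ((m + 1) * P ^ m) * P ^ (m + 1) := Nat.mul_le_mul hNf hGP
      _ = _ := by rw [mul_assoc, ← pow_add]; congr 2; ring
  have hb2 : numer g * F ≤ (m + 1) * P ^ (2 * m + 1) := by
    calc numer g * F ≤ ((m + 1) * P ^ m) * P ^ (m + 1) := Nat.mul_le_mul hNg hFP
      _ = _ := by rw [mul_assoc, ← pow_add]; congr 2; ring
  have hzero : (((numer f * G : ℕ) : ℤ) - ((numer g * F : ℕ) : ℤ)) = 0 := by
    refine Int.eq_zero_of_abs_lt_dvd hdvd ?_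
    rw [abs_lt]; constructor <;> omega
  have hnat : numer f * G = numer g * F := by omega
  have hfr := numer_rat f (fun i => (hf i).2.1)
  have hgr := numer_rat g (fun i => (hg i).2.1)
  have hF0 : (F : ℚ) ≠ 0 := by
    exact_mod_cast Finset.prod_ne_zero_iff.2 (fun i _ => (hf i).2.1)
  have hG0 : (G : ℚ) ≠ 0 := by
    exact_mod_cast Finset.prod_ne_zero_iff.2 (fun i _ => (hg i).2.1)
  have hq : (numer f : ℚ) * G = numer g * F := by exact_mod_cast hnat
  rw [← hfr, ← hgr] at hq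
  have h3 : ((F : ℚ) * G) * ∑ i, (1 / (f i : ℚ)) = ((F : ℚ) * G) * ∑ i, (1 / (g i : ℚ)) := by
    linarith
  exact mul_left_cancel₀ (mul_ne_zero hF0 hG0) h3

/-- Energy bound for reciprocals of primes. -/
lemma energy_le {n m P : ℕ} [NeZero n] (A : Finset ℕ)
    (hA : ∀ p ∈ A, p.Prime ∧ m + 1 < p ∧ p ≤ P ∧ ¬ p ∣ n) (h : ZMod n)
    (hord : (m + 1) * P ^ (2 * m + 1) < addOrderOf h) :
    energy (m + 1) A (fun p => h * ((p : ZMod n))⁻¹) ≤ (m + 1).factorial * A.card ^ (m + 1) := by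
  classical
  have hsub : ((Fintype.piFinset (fun _ : Fin (m + 1) => A)) ×ˢ
      (Fintype.piFinset (fun _ : Fin (m + 1) => A))).filter
      (fun q => ∑ i, h * ((q.1 i : ZMod n))⁻¹ = ∑ i, h * ((q.2 i : ZMod n))⁻¹) ⊆
      ((Fintype.piFinset (fun _ : Fin (m + 1) => A)) ×ˢ
        (Finset.univ : Finset (Equiv.Perm (Fin (m + 1))))).image
        (fun r => (r.1, r.1 ∘ r.2)) := by
    intro q hq
    rw [Finset.mem_filter, Finset.mem_product, Fintype.mem_piFinset, Fintype.mem_piFinset] at hq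
    obtain ⟨⟨h1, h2⟩, h3⟩ := hq
    have hcop : ∀ p ∈ A, p.Coprime n ∧ p ≠ 0 ∧ p ≤ P := by
      intro p hp
      obtain ⟨hp1, -, hp3, hp4⟩ := hA p hp
      exact ⟨(Nat.Prime.coprime_iff_not_dvd hp1).2 hp4, hp1.ne_zero, hp3⟩
    have h4 := recip_sum_eq_of_zmod h hord q.1 q.2 (fun i => hcop _ (h1 i))
      (fun i => hcop _ (h2 i)) h3
    have h5 := fiber_card_of_recip_sum_eq q.1 q.2 (fun i => ⟨(hA _ (h1 i)).1, (hA _ (h1 i)).2.1⟩)
      (fun i => ⟨(hA _ (h2 i)).1, (hA _ (h2 i)).2.1⟩) h4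
    obtain ⟨σ, hσ⟩ := exists_perm_of_fiber_card q.1 q.2 h5
    rw [Finset.mem_image]
    refine ⟨(q.1, σ), ?_, ?_⟩
    · rw [Finset.mem_product, Fintype.mem_piFinset]
      exact ⟨h1, Finset.mem_univ _⟩
    · simp only
      rw [← hσ]
  refine (Finset.card_le_card hsub).trans (Finset.card_image_le.trans ?_)
  rw [Finset.card_product, Finset.card_univ, Fintype.card_perm, Fintype.card_fin,
    Fintype.card_piFinset, Finset.prod_const, Finset.card_univ, Fintype.card_fin, mul_comm]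

end Pool.Agent.Helper12
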